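import Pool.Agent.Y320.CM.AM2
import Pool.Agent.Y944.CM.PSLB
import Pool.Agent.Y944.CM.PSLC
import Pool.Agent.Y48.CM.PSLA
import Pool.Agent.Y369.CM.Spin
import Pool.Agent.Y587.CM.Limc

set_option autoImplicit false
open Filter Topology

namespace Pool.Agent.Y320.CM

/-- the second main theorem of the project, without hypotheses on lemmas -/
theorem psl_main {G : Type} [Group G] {τ : G → Sph → Sph} (hA : Act G τ)
    (htf : ∀ g : G, g ≠ 1 → orderOf g = 0)
    {U : Set Sph} {ι : Type} {l : Filter ι} {ψ : ι → Sph → ℂ}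
    (h : AsymptoticComplexCoordinates G τ U l ψ) : IsUniformLatticePSL2C G :=
  psl_of_coord Pool.Agent.Y587.CM2.normc Pool.Agent.Y587.CM2.limc Pool.Agent.Y369.CM.spin
    Pool.Agent.Y48.CM.psla Pool.Agent.Y944.CM.pslb Pool.Agent.Y944.CM.pslc hA htf h

end Pool.Agent.Y320.CM
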