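import Pool.Agent.Y320.CM.Stm2

set_option autoImplicit false
open Filter Topology

namespace Pool.Agent.Y320.CM

theorem sp_ne_zero (p : Sph) : sp p ≠ 0 := by
  unfold sp
  split_ifs with h
  · intro h0
    have := congrFun h0 1
    simp at this
  · intro h0
    have := congrFun h0 0
    simp only [Matrix.cons_val_zero, Pi.zero_apply] at this
    have h2 : (1 + p.1 2 : ℝ) = 0 := by exact_mod_cast this
    exact h (by linarith)

/-- squared norm of `sp p` -/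
noncomputable def nsp (p : Sph) : ℝ := ‖sp p 0‖ ^ 2 + ‖sp p 1‖ ^ 2

theorem nsp_pos (p : Sph) : 0 < nsp p := by
  have h := sp_ne_zero p
  unfold nsp
  by_contra hcon
  push Not at hcon
  have h0 : ‖sp p 0‖ ^ 2 = 0 := le_antisymm (by nlinarith [sq_nonneg ‖sp p 1‖]) (sq_nonneg _)
  have h1 : ‖sp p 1‖ ^ 2 = 0 := le_antisymm (by nlinarith [sq_nonneg ‖sp p 0‖]) (sq_nonneg _)
  apply h
  ext i
  fin_cases i
  · simpa using h0
  · simpa using h1

theorem norm_wedge_sq (a b : Sph) :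
    ‖wedge (sp a) (sp b)‖ ^ 2 = dist a b ^ 2 / 4 * (nsp a * nsp b) := by
  have sa := sph_sq a
  have sb := sph_sq b
  rw [dist_sq]
  have key : ∀ z : ℂ, ‖z‖ ^ 2 = z.re ^ 2 + z.im ^ 2 := by
    intro z
    rw [← Complex.normSq_eq_norm_sq, Complex.normSq_apply]; ring
  unfold nsp wedge
  simp only [key]
  unfold sp
  have two : ∀ x y z : ℝ, x ^ 2 + y ^ 2 + z ^ 2 = 1 → z = -1 → x = 0 ∧ y = 0 := by
    intro x y z h1 h2
    subst h2
    constructor <;> nlinarith [sq_nonneg x, sq_nonneg y]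
  split_ifs with h1 h2 h2
  · obtain ⟨u1, u2⟩ := two _ _ _ sa h1
    obtain ⟨v1, v2⟩ := two _ _ _ sb h2
    simp [h1, h2, u1, u2, v1, v2]
  · obtain ⟨u1, u2⟩ := two _ _ _ sa h1
    simp only [Matrix.cons_val_zero, Matrix.cons_val_one, Complex.sub_re, Complex.sub_im,
      Complex.mul_re, Complex.mul_im, Complex.ofReal_re, Complex.ofReal_im, Complex.zero_re,
      Complex.zero_im, Complex.one_re, Complex.one_im, h1, u1, u2]
    linear_combination (-(1 + b.1 2) - ((b.1 0) ^ 2 + (b.1 1) ^ 2 + (b.1 2) ^ 2 - 1) / 4) * sb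
  · obtain ⟨v1, v2⟩ := two _ _ _ sb h2
    simp only [Matrix.cons_val_zero, Matrix.cons_val_one, Complex.sub_re, Complex.sub_im,
      Complex.mul_re, Complex.mul_im, Complex.ofReal_re, Complex.ofReal_im, Complex.zero_re,
      Complex.zero_im, Complex.one_re, Complex.one_im, h2, v1, v2]
    linear_combination (-(1 + a.1 2) - ((a.1 0) ^ 2 + (a.1 1) ^ 2 + (a.1 2) ^ 2 - 1) / 4) * sa
  · simp only [Matrix.cons_val_zero, Matrix.cons_val_one, Complex.sub_re, Complex.sub_im,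
      Complex.mul_re, Complex.mul_im, Complex.ofReal_re, Complex.ofReal_im]
    have ea : (1 + a.1 2) ^ 2 + 0 ^ 2 + ((a.1 0) ^ 2 + (a.1 1) ^ 2) = 2 * (1 + a.1 2) := by
      linarith
    have eb : (1 + b.1 2) ^ 2 + 0 ^ 2 + ((b.1 0) ^ 2 + (b.1 1) ^ 2) = 2 * (1 + b.1 2) := by
      linarith
    rw [ea, eb]
    have d1 : (a.1 0 - b.1 0) ^ 2 + (a.1 1 - b.1 1) ^ 2 + (a.1 2 - b.1 2) ^ 2 =
        2 - 2 * (a.1 0 * b.1 0 + a.1 1 * b.1 1 + a.1 2 * b.1 2) := by linarith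
    rw [d1]
    have l1 : ((1 + a.1 2) * b.1 0 - 0 * b.1 1 - (a.1 0 * (1 + b.1 2) - a.1 1 * 0)) ^ 2 +
        ((1 + a.1 2) * b.1 1 + 0 * b.1 0 - (a.1 0 * 0 + a.1 1 * (1 + b.1 2))) ^ 2 =
        (1 + a.1 2) ^ 2 * ((b.1 0) ^ 2 + (b.1 1) ^ 2) + (1 + b.1 2) ^ 2 * ((a.1 0) ^ 2 + (a.1 1) ^ 2)
        - 2 * (1 + a.1 2) * (1 + b.1 2) * (a.1 0 * b.1 0 + a.1 1 * b.1 1) := by ring
    rw [l1]
    have l2 : (b.1 0) ^ 2 + (b.1 1) ^ 2 = 1 - (b.1 2) ^ 2 := by linarith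
    have l3 : (a.1 0) ^ 2 + (a.1 1) ^ 2 = 1 - (a.1 2) ^ 2 := by linarith
    rw [l2, l3]
    ring

theorem wedge_eq_zero_iff (a b : Sph) : wedge (sp a) (sp b) = 0 ↔ a = b := by
  have h := norm_wedge_sq a b
  have pa := nsp_pos a
  have pb := nsp_pos b
  constructor
  · intro h0
    rw [h0, norm_zero] at h
    have h1 : dist a b ^ 2 = 0 := by
      have : dist a b ^ 2 / 4 * (nsp a * nsp b) = 0 := by rw [← h]; ring
      rcases mul_eq_zero.1 this with h2 | h2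
      · linarith
      · exact absurd h2 (mul_pos pa pb).ne'
    exact dist_eq_zero.1 (pow_eq_zero_iff two_ne_zero |>.1 h1)
  · rintro rfl
    unfold wedge; ring

theorem norm_wedge (a b : Sph) :
    ‖wedge (sp a) (sp b)‖ = dist a b / 2 * √(nsp a * nsp b) := by
  have h := norm_wedge_sq a b
  have pa := nsp_pos a
  have pb := nsp_pos b
  have h2 : (dist a b / 2 * √(nsp a * nsp b)) ^ 2 = ‖wedge (sp a) (sp b)‖ ^ 2 := by
    rw [mul_pow, Real.sq_sqrt (by positivity), h]; ring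
  exact ((sq_eq_sq₀ (norm_nonneg _) (by positivity)).1 h2.symm)

theorem norm_chi (a b c e : Sph) : ‖chi a b c e‖ = cr a b c e := by
  unfold chi cr
  rw [norm_div, norm_mul, norm_mul, norm_wedge, norm_wedge, norm_wedge, norm_wedge]
  have pa := nsp_pos a
  have pb := nsp_pos b
  have pc := nsp_pos c
  have pe := nsp_pos e
  rw [Real.sqrt_mul pa.le, Real.sqrt_mul pc.le, Real.sqrt_mul pa.le, Real.sqrt_mul pb.le]
  have qa := Real.sqrt_pos.2 pa
  have qb := Real.sqrt_pos.2 pb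
  have qc := Real.sqrt_pos.2 pc
  have qe := Real.sqrt_pos.2 pe
  have e1 : dist a b / 2 * (√(nsp a) * √(nsp b)) * (dist c e / 2 * (√(nsp c) * √(nsp e))) =
      (dist a b * dist c e) * ((√(nsp a) * √(nsp b) * √(nsp c) * √(nsp e)) / 4) := by ring
  have e2 : dist a c / 2 * (√(nsp a) * √(nsp c)) * (dist b e / 2 * (√(nsp b) * √(nsp e))) =
      (dist a c * dist b e) * ((√(nsp a) * √(nsp b) * √(nsp c) * √(nsp e)) / 4) := by ring
  rw [e1, e2]
  exact mul_div_mul_right _ _ (by positivity)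

theorem sp_sg (z : ℂ) : sp (sg z) = ((2 / (1 + ‖z‖ ^ 2) : ℝ) : ℂ) • ![1, z] := by
  have h : 0 < 1 + ‖z‖ ^ 2 := by positivity
  unfold sp sg
  have h1 : (1 - ‖z‖ ^ 2) / (1 + ‖z‖ ^ 2) ≠ -1 := by
    intro h2
    rw [div_eq_iff h.ne'] at h2
    linarith
  simp only [Matrix.cons_val_zero, Matrix.cons_val_one, Matrix.cons_val]
  rw [if_neg h1]
  ext i
  fin_cases i
  · simp only [Matrix.cons_val_zero, Pi.smul_apply, smul_eq_mul, Fin.zero_eta, mul_one]
    congr 1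
    field_simp
    ring
  · simp only [Matrix.cons_val_one, Pi.smul_apply, smul_eq_mul, Fin.mk_one,
      Matrix.cons_val_fin_one]
    apply Complex.ext
    · rw [Complex.re_ofReal_mul]; ring
    · rw [Complex.im_ofReal_mul]; ring

theorem chi_sg (z1 z2 z3 z4 : ℂ) : chi (sg z1) (sg z2) (sg z3) (sg z4) =
    (z1 - z2) * (z3 - z4) / ((z1 - z3) * (z2 - z4)) := by
  have key : ∀ z : ℂ, ((2 / (1 + ‖z‖ ^ 2) : ℝ) : ℂ) ≠ 0 := by
    intro z
    have h : 0 < 1 + ‖z‖ ^ 2 := by positivity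
    exact_mod_cast (div_pos two_pos h).ne'
  unfold chi
  simp only [sp_sg]
  have k1 := key z1
  have k2 := key z2
  have k3 := key z3
  have k4 := key z4
  set c1 := ((2 / (1 + ‖z1‖ ^ 2) : ℝ) : ℂ)
  set c2 := ((2 / (1 + ‖z2‖ ^ 2) : ℝ) : ℂ)
  set c3 := ((2 / (1 + ‖z3‖ ^ 2) : ℝ) : ℂ)
  set c4 := ((2 / (1 + ‖z4‖ ^ 2) : ℝ) : ℂ)
  have w : ∀ (c d : ℂ) (x y : ℂ), wedge (c • ![1, x]) (d • ![1, y]) = c * d * (y - x) := by
    intro c d x y
    unfold wedge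
    simp only [Pi.smul_apply, smul_eq_mul, Matrix.cons_val_zero, Matrix.cons_val_one]
    ring
  rw [w, w, w, w]
  have e1 : c1 * c2 * (z2 - z1) * (c3 * c4 * (z4 - z3)) =
      ((z1 - z2) * (z3 - z4)) * (c1 * c2 * c3 * c4) := by ring
  have e2 : c1 * c3 * (z3 - z1) * (c2 * c4 * (z4 - z2)) =
      ((z1 - z3) * (z2 - z4)) * (c1 * c2 * c3 * c4) := by ring
  rw [e1, e2]
  exact mul_div_mul_right _ _ (mul_ne_zero (mul_ne_zero (mul_ne_zero k1 k2) k3) k4)

end Pool.Agent.Y320.CM
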