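import Pool.Agent.Y320.CM.Main

set_option autoImplicit false
open Filter Topology

namespace Pool.Agent.Y320.CM

theorem cr_pos {a b c e : Sph} (h : D4 a b c e) : 0 < cr a b c e := by
  obtain ⟨h1, h2, h3, h4, h5, h6⟩ := h
  have := dist_pos.2 h1
  have := dist_pos.2 h6
  have := dist_pos.2 h2
  have := dist_pos.2 h5
  unfold cr
  positivity

/-- being four distinct points is an open condition -/
theorem D4_open {a b c e : Sph} (h : D4 a b c e) :
    ∀ᶠ q in 𝓝 (a, b, c, e), D4 q.1 q.2.1 q.2.2.1 q.2.2.2 := by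
  obtain ⟨h1, h2, h3, h4, h5, h6⟩ := h
  have key : ∀ (f g : Sph × Sph × Sph × Sph → Sph), Continuous f → Continuous g →
      f (a, b, c, e) ≠ g (a, b, c, e) → ∀ᶠ q in 𝓝 (a, b, c, e), f q ≠ g q :=
    fun f g hf hg hne => (isOpen_ne_fun hf hg).mem_nhds hne
  filter_upwards [key (fun q => q.1) (fun q => q.2.1) (by fun_prop) (by fun_prop) h1,
    key (fun q => q.1) (fun q => q.2.2.1) (by fun_prop) (by fun_prop) h2,
    key (fun q => q.1) (fun q => q.2.2.2) (by fun_prop) (by fun_prop) h3,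
    key (fun q => q.2.1) (fun q => q.2.2.1) (by fun_prop) (by fun_prop) h4,
    key (fun q => q.2.1) (fun q => q.2.2.2) (by fun_prop) (by fun_prop) h5,
    key (fun q => q.2.2.1) (fun q => q.2.2.2) (by fun_prop) (by fun_prop) h6] with q a1 a2 a3 a4 a5 a6
  exact ⟨a1, a2, a3, a4, a5, a6⟩

theorem D4_map {a b c e : Sph} (h : D4 a b c e) (f : Sph → Sph) (O : Set Sph)
    (hf : Set.InjOn f O) (ha : a ∈ O) (hb : b ∈ O) (hc : c ∈ O) (he : e ∈ O) :
    D4 (f a) (f b) (f c) (f e) := by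
  obtain ⟨h1, h2, h3, h4, h5, h6⟩ := h
  exact ⟨fun h => h1 (hf ha hb h), fun h => h2 (hf ha hc h), fun h => h3 (hf ha he h),
    fun h => h4 (hf hb hc h), fun h => h5 (hf hb he h), fun h => h6 (hf hc he h)⟩

/-- `cr` is continuous at four distinct points -/
theorem cr_tendsto {X : Type} {l : Filter X} {f1 f2 f3 f4 : X → Sph} {a b c e : Sph}
    (h : D4 a b c e) (h1 : Tendsto f1 l (𝓝 a)) (h2 : Tendsto f2 l (𝓝 b)) (h3 : Tendsto f3 l (𝓝 c))
    (h4 : Tendsto f4 l (𝓝 e)) :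
    Tendsto (fun x => cr (f1 x) (f2 x) (f3 x) (f4 x)) l (𝓝 (cr a b c e)) := by
  unfold cr
  refine Tendsto.div ((h1.dist h2).mul (h3.dist h4)) ((h1.dist h3).mul (h2.dist h4)) ?_
  have := dist_pos.2 h.2.1
  have := dist_pos.2 h.2.2.2.2.1
  positivity

/-- An action which is asymptotically Moebius at one point, in a coordinate continuous and
injective near this point, has a net of coordinates as in `Coord`. -/
theorem coord_of_point {G : Type} [Group G] {τ : G → Sph → Sph} (hA : Act G τ)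
    (p : Sph) (O : Set Sph) (hO : O ∈ 𝓝 p) (ψ : Sph → Sph) (hc : ContinuousOn ψ O)
    (hi : Set.InjOn ψ O)
    (h : ∀ ε : ℝ, 0 < ε → ∃ W ∈ 𝓝 p, ∀ (g : G) (a b c e : Sph), a ∈ W → b ∈ W → c ∈ W → e ∈ W →
      D4 a b c e → τ g a ∈ W → τ g b ∈ W → τ g c ∈ W → τ g e ∈ W →
      |cr (ψ (τ g a)) (ψ (τ g b)) (ψ (τ g c)) (ψ (τ g e)) / cr (ψ a) (ψ b) (ψ c) (ψ e) - 1| ≤ ε) :
    ∃ (ι : Type) (l : Filter ι) (_ : l.NeBot) (χ : ι → Sph → Sph), Coord G τ Set.univ l χ := by
  have hex : ∀ i : Finset Sph × ℕ, ∃ g, ∀ a ∈ i.1, τ g a ∈ Metric.ball p (1 / ((i.2 : ℝ) + 1)) := by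
    intro i
    exact hA.contr i.1 _ Metric.isOpen_ball ⟨p, Metric.mem_ball_self (by positivity)⟩
  choose γ hγ using hex
  have hev : ∀ (a : Sph) (W : Set Sph), W ∈ 𝓝 p → ∀ᶠ i in (atTop : Filter (Finset Sph × ℕ)),
      τ (γ i) a ∈ W := by
    intro a W hW
    obtain ⟨r, hr, hrW⟩ := Metric.mem_nhds_iff.1 hW
    obtain ⟨n, hn⟩ := exists_nat_one_div_lt hr
    filter_upwards [eventually_ge_atTop (({a} : Finset Sph), n)] with i hi
    have h1 : a ∈ i.1 := hi.1 (Finset.mem_singleton_self a)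
    have h2 : (n : ℝ) ≤ i.2 := by exact_mod_cast hi.2
    have h3 := hγ i a h1
    apply hrW
    rw [Metric.mem_ball] at h3 ⊢
    refine h3.trans_le (le_trans ?_ hn.le)
    exact one_div_le_one_div_of_le (by positivity) (by linarith)
  refine ⟨Finset Sph × ℕ, atTop, inferInstance, fun i x => ψ (τ (γ i) x), ?_, ?_⟩
  · intro a b c e _ _ _ _ hD
    obtain ⟨W, hW, hWε⟩ := h (1 / 2) (by norm_num)
    have hW' : interior (W ∩ O) ∈ 𝓝 p := interior_mem_nhds.2 (inter_mem hW hO)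
    obtain ⟨g0, hg0⟩ := hA.contr {a, b, c, e} (interior (W ∩ O)) isOpen_interior
      ⟨p, mem_of_mem_nhds hW'⟩
    have ma : τ g0 a ∈ interior (W ∩ O) := hg0 a (by simp)
    have mb : τ g0 b ∈ interior (W ∩ O) := hg0 b (by simp)
    have mc : τ g0 c ∈ interior (W ∩ O) := hg0 c (by simp)
    have me : τ g0 e ∈ interior (W ∩ O) := hg0 e (by simp)
    have hD0 : D4 (τ g0 a) (τ g0 b) (τ g0 c) (τ g0 e) :=
      D4_map hD (τ g0) Set.univ (tau_inj hA g0).injOn trivial trivial trivial trivial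
    have hD1 : D4 (ψ (τ g0 a)) (ψ (τ g0 b)) (ψ (τ g0 c)) (ψ (τ g0 e)) :=
      D4_map hD0 ψ O hi (interior_subset ma).2 (interior_subset mb).2 (interior_subset mc).2
        (interior_subset me).2
    set c0 := cr (ψ (τ g0 a)) (ψ (τ g0 b)) (ψ (τ g0 c)) (ψ (τ g0 e)) with hc0
    have hc0p : 0 < c0 := cr_pos hD1
    have hψ : ∀ x ∈ interior (W ∩ O), ContinuousAt ψ x := fun x hx =>
      hc.continuousAt (mem_of_superset (isOpen_interior.mem_nhds hx)
        (interior_subset.trans Set.inter_subset_right))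
    have ct : ∀ (x : Sph) (f : Sph × Sph × Sph × Sph → Sph), Continuous f → f (a, b, c, e) = x →
        τ g0 x ∈ interior (W ∩ O) →
        Tendsto (fun q => ψ (τ g0 (f q))) (𝓝 (a, b, c, e)) (𝓝 (ψ (τ g0 x))) := by
      intro x f hf hfx hx
      have h1 : Tendsto (fun q => τ g0 (f q)) (𝓝 (a, b, c, e)) (𝓝 (τ g0 x)) := by
        rw [← hfx]
        exact ((hA.cont g0).comp hf).tendsto _
      exact (hψ _ hx).tendsto.comp h1
    have hlim : Tendsto (fun q : Sph × Sph × Sph × Sph => cr (ψ (τ g0 q.1)) (ψ (τ g0 q.2.1))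
        (ψ (τ g0 q.2.2.1)) (ψ (τ g0 q.2.2.2))) (𝓝 (a, b, c, e)) (𝓝 c0) :=
      cr_tendsto hD1 (ct a (fun q => q.1) (by fun_prop) rfl ma)
        (ct b (fun q => q.2.1) (by fun_prop) rfl mb)
        (ct c (fun q => q.2.2.1) (by fun_prop) rfl mc)
        (ct e (fun q => q.2.2.2) (by fun_prop) rfl me)
    have inW : ∀ (f : Sph × Sph × Sph × Sph → Sph), Continuous f →
        τ g0 (f (a, b, c, e)) ∈ interior (W ∩ O) →
        ∀ᶠ q in 𝓝 (a, b, c, e), τ g0 (f q) ∈ W := by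
      intro f hf hx
      have h1 : Tendsto (fun q => τ g0 (f q)) (𝓝 (a, b, c, e)) (𝓝 (τ g0 (f (a, b, c, e)))) :=
        ((hA.cont g0).comp hf).tendsto _
      filter_upwards [h1.eventually (isOpen_interior.mem_nhds hx)] with q hq
      exact (interior_subset hq).1
    refine ⟨max (4 / c0) (3 * c0), lt_max_of_lt_right (by positivity), ?_⟩
    filter_upwards [D4_open hD, inW (fun q => q.1) (by fun_prop) ma,
      inW (fun q => q.2.1) (by fun_prop) mb, inW (fun q => q.2.2.1) (by fun_prop) mc,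
      inW (fun q => q.2.2.2) (by fun_prop) me,
      hlim.eventually (eventually_gt_nhds (show c0 / 2 < c0 by linarith)),
      hlim.eventually (eventually_lt_nhds (show c0 < 2 * c0 by linarith))]
      with q qD qa qb qc qe q1 q2
    filter_upwards [hev q.1 W hW, hev q.2.1 W hW, hev q.2.2.1 W hW, hev q.2.2.2 W hW]
      with i ia ib ic ie
    have hback : ∀ x, τ (γ i * g0⁻¹) (τ g0 x) = τ (γ i) x := by
      intro x
      rw [← hA.mul, inv_mul_cancel_right]
    have qD0 : D4 (τ g0 q.1) (τ g0 q.2.1) (τ g0 q.2.2.1) (τ g0 q.2.2.2) :=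
      D4_map qD (τ g0) Set.univ (tau_inj hA g0).injOn trivial trivial trivial trivial
    have key := hWε (γ i * g0⁻¹) _ _ _ _ qa qb qc qe qD0 (by rwa [hback]) (by rwa [hback])
      (by rwa [hback]) (by rwa [hback])
    simp only [hback] at key
    set x := cr (ψ (τ g0 q.1)) (ψ (τ g0 q.2.1)) (ψ (τ g0 q.2.2.1)) (ψ (τ g0 q.2.2.2)) with hx
    set y := cr (ψ (τ (γ i) q.1)) (ψ (τ (γ i) q.2.1)) (ψ (τ (γ i) q.2.2.1))
      (ψ (τ (γ i) q.2.2.2)) with hy
    have hxp : 0 < x := by linarith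
    rw [abs_le] at key
    have k1 : 1 / 2 ≤ y / x := by linarith [key.1]
    have k2 : y / x ≤ 3 / 2 := by linarith [key.2]
    rw [le_div_iff₀ hxp] at k1
    rw [div_le_iff₀ hxp] at k2
    constructor
    · have : (max (4 / c0) (3 * c0))⁻¹ ≤ (4 / c0)⁻¹ := by
        apply inv_anti₀ (by positivity) (le_max_left _ _)
      refine this.trans ?_
      rw [inv_div]
      linarith
    · refine le_trans ?_ (le_max_right _ _)
      linarith
  · intro g a b c e _ _ _ _ hD _ _ _ _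
    rw [Metric.tendsto_nhds]
    intro ε hε
    obtain ⟨W, hW, hWε⟩ := h (ε / 2) (by positivity)
    filter_upwards [hev a W hW, hev b W hW, hev c W hW, hev e W hW, hev (τ g a) W hW,
      hev (τ g b) W hW, hev (τ g c) W hW, hev (τ g e) W hW] with i i1 i2 i3 i4 i5 i6 i7 i8
    have hback : ∀ x, τ (γ i * g * (γ i)⁻¹) (τ (γ i) x) = τ (γ i) (τ g x) := by
      intro x
      rw [← hA.mul, ← hA.mul, inv_mul_cancel_right]
    have hD0 : D4 (τ (γ i) a) (τ (γ i) b) (τ (γ i) c) (τ (γ i) e) :=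
      D4_map hD (τ (γ i)) Set.univ (tau_inj hA _).injOn trivial trivial trivial trivial
    have key := hWε (γ i * g * (γ i)⁻¹) _ _ _ _ i1 i2 i3 i4 hD0 (by rwa [hback]) (by rwa [hback])
      (by rwa [hback]) (by rwa [hback])
    simp only [hback] at key
    rw [Real.dist_eq]
    linarith

end Pool.Agent.Y320.CM
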