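import Pool.Agent.Y320.CM.Stm

set_option autoImplicit false
open Filter Topology

namespace Pool.Agent.Y320.CM

theorem sph_sq (p : Sph) : (p.1 0) ^ 2 + (p.1 1) ^ 2 + (p.1 2) ^ 2 = 1 := by
  have h : ‖p.1‖ = 1 := by
    have := p.2
    simpa [mem_sphere_iff_norm] using this
  rw [EuclideanSpace.norm_eq] at h
  have h2 : (∑ i : Fin 3, ‖p.1 i‖ ^ 2) = 1 := by
    have h3 : 0 ≤ (∑ i : Fin 3, ‖p.1 i‖ ^ 2) := Finset.sum_nonneg fun i _ => by positivity
    have := Real.sq_sqrt h3
    rw [h] at this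
    linarith
  simp only [Fin.sum_univ_three, Real.norm_eq_abs, sq_abs] at h2
  exact h2

theorem dist_sq (p q : Sph) :
    dist p q ^ 2 = (p.1 0 - q.1 0) ^ 2 + (p.1 1 - q.1 1) ^ 2 + (p.1 2 - q.1 2) ^ 2 := by
  rw [Subtype.dist_eq, EuclideanSpace.dist_eq, Real.sq_sqrt (Finset.sum_nonneg fun i _ => by positivity)]
  simp only [Fin.sum_univ_three, Real.dist_eq, sq_abs]

theorem BN (p q : Sph) : B (N p) (N q) = -(dist p q ^ 2) / 2 := by
  rw [dist_sq]
  have h1 := sph_sq p
  have h2 := sph_sq q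
  simp only [B, N, Matrix.cons_val_zero, Matrix.cons_val_one, Matrix.cons_val]
  nlinarith

theorem dist_le_two (p q : Sph) : dist p q ≤ 2 := by
  have h : dist p q ^ 2 ≤ 2 ^ 2 := by
    rw [dist_sq]
    have h1 := sph_sq p
    have h2 := sph_sq q
    nlinarith [sq_nonneg (p.1 0 + q.1 0), sq_nonneg (p.1 1 + q.1 1), sq_nonneg (p.1 2 + q.1 2)]
  exact le_of_sq_le_sq h (by norm_num)

theorem B_smul_left (c : ℝ) (v w : V) : B (c • v) w = c * B v w := by
  simp only [B, Pi.smul_apply, smul_eq_mul]; ring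

theorem B_smul_right (c : ℝ) (v w : V) : B v (c • w) = c * B v w := by
  simp only [B, Pi.smul_apply, smul_eq_mul]; ring

theorem B_add_left (u v w : V) : B (u + v) w = B u w + B v w := by
  simp only [B, Pi.add_apply]; ring

theorem B_add_right (u v w : V) : B u (v + w) = B u v + B u w := by
  simp only [B, Pi.add_apply]; ring

theorem B_comm (v w : V) : B v w = B w v := by
  simp only [B]; ring

theorem continuous_N : Continuous N := by
  unfold N
  refine continuous_pi fun i => ?_
  fin_cases i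
  · exact continuous_const
  · show Continuous fun p : Sph => p.1 0
    fun_prop
  · show Continuous fun p : Sph => p.1 1
    fun_prop
  · show Continuous fun p : Sph => p.1 2
    fun_prop

theorem N_zero (p : Sph) : N p 0 = 1 := rfl

theorem continuous_B : Continuous fun q : V × V => B q.1 q.2 := by
  unfold B; fun_prop

/-- two null directions and an isotropic vector orthogonal to both -/
theorem isotropic_zero (w : V) (p q : Sph) (hpq : p ≠ q) (h0 : B w w = 0) (hp : B w (N p) = 0)
    (hq : B w (N q) = 0) : w = 0 := by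
  have s1 := sph_sq p
  have s2 := sph_sq q
  simp only [B, N, Matrix.cons_val_zero, Matrix.cons_val_one, Matrix.cons_val] at h0 hp hq
  have key : ∀ x : Sph, -(w 0 * 1) + w 1 * x.1 0 + w 2 * x.1 1 + w 3 * x.1 2 = 0 →
      w 1 = w 0 * x.1 0 ∧ w 2 = w 0 * x.1 1 ∧ w 3 = w 0 * x.1 2 := by
    intro x hx
    have sx := sph_sq x
    have hs : (w 1 - w 0 * x.1 0) ^ 2 + (w 2 - w 0 * x.1 1) ^ 2 + (w 3 - w 0 * x.1 2) ^ 2 = 0 := by
      have e1 : (w 1 - w 0 * x.1 0) ^ 2 + (w 2 - w 0 * x.1 1) ^ 2 + (w 3 - w 0 * x.1 2) ^ 2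
        = (w 1 * w 1 + w 2 * w 2 + w 3 * w 3) - 2 * w 0 * (w 1 * x.1 0 + w 2 * x.1 1 + w 3 * x.1 2)
          + w 0 ^ 2 * ((x.1 0) ^ 2 + (x.1 1) ^ 2 + (x.1 2) ^ 2) := by ring
      rw [e1, sx]
      have e2 : w 1 * x.1 0 + w 2 * x.1 1 + w 3 * x.1 2 = w 0 := by linarith
      rw [e2]; linarith
    have z1 := sq_nonneg (w 1 - w 0 * x.1 0)
    have z2 := sq_nonneg (w 2 - w 0 * x.1 1)
    have z3 := sq_nonneg (w 3 - w 0 * x.1 2)
    refine ⟨?_, ?_, ?_⟩
    · have : (w 1 - w 0 * x.1 0) ^ 2 = 0 := by linarith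
      have := pow_eq_zero_iff (two_ne_zero) |>.1 this
      linarith
    · have : (w 2 - w 0 * x.1 1) ^ 2 = 0 := by linarith
      have := pow_eq_zero_iff (two_ne_zero) |>.1 this
      linarith
    · have : (w 3 - w 0 * x.1 2) ^ 2 = 0 := by linarith
      have := pow_eq_zero_iff (two_ne_zero) |>.1 this
      linarith
  obtain ⟨a1, a2, a3⟩ := key p hp
  obtain ⟨b1, b2, b3⟩ := key q hq
  have hw0 : w 0 = 0 := by
    by_contra hne
    apply hpq
    have c1 : p.1 0 = q.1 0 := mul_left_cancel₀ hne (a1.symm.trans b1)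
    have c2 : p.1 1 = q.1 1 := mul_left_cancel₀ hne (a2.symm.trans b2)
    have c3 : p.1 2 = q.1 2 := mul_left_cancel₀ hne (a3.symm.trans b3)
    apply Subtype.ext
    ext i
    fin_cases i
    · exact c1
    · exact c2
    · exact c3
  rw [hw0] at a1 a2 a3
  ext i
  fin_cases i
  · exact hw0
  · simpa using a1
  · simpa using a2
  · simpa using a3

/-- nondegeneracy of spans of null vectors -/
theorem span_nondeg {Y : Type} (m : Y → V) (f : Y → Sph) (l : Y → ℝ) (hl : ∀ a, l a ≠ 0)
    (hm : ∀ a, m a = l a • N (f a)) (a b : Y) (hab : f a ≠ f b) :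
    ∀ w ∈ Submodule.span ℝ (Set.range m), (∀ a, B w (m a) = 0) → w = 0 := by
  intro w hw h
  have hall : ∀ u ∈ Submodule.span ℝ (Set.range m), B w u = 0 := by
    intro u hu
    induction hu using Submodule.span_induction with
    | mem x hx => obtain ⟨y, rfl⟩ := hx; exact h y
    | zero => simp [B]
    | add x y _ _ hx hy => rw [B_add_right, hx, hy, add_zero]
    | smul c x _ hx => rw [B_smul_right, hx, mul_zero]
  have hp : ∀ y, B w (N (f y)) = 0 := by
    intro y
    have := h y
    rw [hm, B_smul_right] at this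
    exact (mul_eq_zero.1 this).resolve_left (hl y)
  exact isotropic_zero w (f a) (f b) hab (hall w hw) (hp a) (hp b)

/-- limits along ultrafilters exist in the sphere -/
theorem exists_lim {ι : Type} (𝓤 : Ultrafilter ι) (f : ι → Sph) :
    ∃ s, Tendsto f (𝓤 : Filter ι) (𝓝 s) := by
  obtain ⟨s, -, hs⟩ := (isCompact_univ (X := Sph)).ultrafilter_le_nhds (𝓤.map f) (by simp)
  exact ⟨s, hs⟩

instance : Infinite Sph := by
  let f : Set.Icc (-1 : ℝ) 1 → Sph := fun t =>
    ⟨!₂[(t : ℝ), √(1 - (t : ℝ) ^ 2), 0], by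
      rw [mem_sphere_zero_iff_norm, EuclideanSpace.norm_eq]
      simp only [Fin.sum_univ_three, Real.norm_eq_abs, sq_abs]
      simp only [PiLp.toLp_apply, Matrix.cons_val_zero, Matrix.cons_val_one, Matrix.cons_val]
      have h1 : 0 ≤ 1 - (t : ℝ) ^ 2 := by
        have := t.2.1
        have := t.2.2
        nlinarith
      rw [Real.sq_sqrt h1]
      simp⟩
  have hf : Function.Injective f := by
    intro a b hab
    have h1 := congrArg (fun q : Sph => q.1 0) hab
    simp only [f, PiLp.toLp_apply, Matrix.cons_val_zero] at h1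
    exact Subtype.ext h1
  have : Infinite (Set.Icc (-1 : ℝ) 1) := Set.infinite_coe_iff.2 (Set.Icc_infinite (by norm_num))
  exact Infinite.of_injective f hf

/-- a point different from finitely many given ones -/
theorem exists_new (A : Finset Sph) : ∃ p : Sph, p ∉ A := Infinite.exists_notMem_finset A

end Pool.Agent.Y320.CM
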