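import Pool.Agent.Y320.CM.Basic

set_option autoImplicit false
open Filter Topology

namespace Pool.Agent.Y320.CM

theorem tau_inj {G : Type} [Group G] {τ : G → Sph → Sph} (hA : Act G τ) (g : G) :
    Function.Injective (τ g) := by
  intro a b h
  have := congrArg (τ g⁻¹) h
  rwa [← hA.mul, ← hA.mul, inv_mul_cancel, hA.one, hA.one] at this

/-- Case A of the continuity theorem: the limits along the conical sequence coincide. -/
theorem cont_caseA {G : Type} [Group G] {τ : G → Sph → Sph} (hA : Act G τ) (F : Sph → Sph)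
    (hF : Function.Injective F) (hI : Inv G τ F)
    (hsep : ∀ x y : Sph, x ≠ y → ∃ c : ℝ, 0 < c ∧ ∀ᶠ q in 𝓝 (x, y), c ≤ dist (F q.1) (F q.2))
    (x : Sph) (𝓦 : Ultrafilter G) (v w : Sph) (hvw : v ≠ w)
    (hw : Tendsto (fun g => τ g x) (𝓦 : Filter G) (𝓝 w))
    (hv : ∀ y, y ≠ x → Tendsto (fun g => τ g y) (𝓦 : Filter G) (𝓝 v))
    (a a' : Sph) (ha : a ≠ x) (ha' : a' ≠ x) (haa : a ≠ a')
    (hl : Tendsto (fun g => dist (F (τ g a)) (F (τ g a'))) (𝓦 : Filter G) (𝓝 0)) :
    ContinuousAt F x := by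
  by_contra hnc
  obtain ⟨δ, hδ, hfr⟩ : ∃ δ : ℝ, 0 < δ ∧ ∃ᶠ y in 𝓝 x, δ ≤ dist (F y) (F x) := by
    by_contra hcon
    push Not at hcon
    apply hnc
    rw [ContinuousAt, Metric.tendsto_nhds]
    intro ε hε
    have := hcon ε hε
    simpa only [Filter.not_frequently, not_le] using this
  obtain ⟨c, hc, hcv⟩ := hsep w v (Ne.symm hvw)
  rw [nhds_prod_eq, Filter.eventually_prod_iff] at hcv
  obtain ⟨pw, hpw, pv, hpv, hcwv⟩ := hcv
  have hFa : 0 < dist (F a) (F a') := dist_pos.2 (fun h => haa (hF h))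
  set η : ℝ := δ * dist (F a) (F a') * c ^ 2 / 8 with hη
  have hη0 : 0 < η := by positivity
  -- the key inequality for most `g`
  have key : ∀ᶠ g in (𝓦 : Filter G), η ≤ dist (F (τ g a)) (F (τ g a')) := by
    obtain ⟨W, hWsub, hWo, hwW⟩ := mem_nhds_iff.1 (show {p | pw p} ∈ 𝓝 w from hpw)
    filter_upwards [hw.eventually (hWo.mem_nhds hwW), (hv a ha).eventually hpv,
      (hv a' ha').eventually hpv] with g h1 h2 h3
    -- choose y
    have e1 : ∀ᶠ y in 𝓝 x, τ g y ∈ W :=
      (hA.cont g).continuousAt.eventually (hWo.mem_nhds h1)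
    have e2 : ∀ᶠ y in 𝓝 x, y ≠ a := isOpen_ne.mem_nhds (Ne.symm ha)
    have e3 : ∀ᶠ y in 𝓝 x, y ≠ a' := isOpen_ne.mem_nhds (Ne.symm ha')
    obtain ⟨y, hy, hyW, hya, hya'⟩ := (hfr.and_eventually (e1.and (e2.and e3))).exists
    have hyx : y ≠ x := by
      rintro rfl
      rw [dist_self] at hy
      linarith
    have hD : D4 y x a a' := ⟨hyx, hya, hya', Ne.symm ha, Ne.symm ha', haa⟩
    have hcr := hI g y x a a' hD
    unfold cr at hcr
    have p1 : c ≤ dist (F (τ g y)) (F (τ g a)) := hcwv (hWsub hyW) h2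
    have p2 : c ≤ dist (F (τ g x)) (F (τ g a')) := hcwv (hWsub h1) h3
    have q1 : 0 < dist (F y) (F a) := dist_pos.2 (fun h => hya (hF h))
    have q2 : 0 < dist (F x) (F a') := dist_pos.2 (fun h => (Ne.symm ha') (hF h))
    have r1 := dist_le_two (F y) (F a)
    have r2 := dist_le_two (F x) (F a')
    have r3 := dist_le_two (F (τ g y)) (F (τ g x))
    have p10 : 0 < dist (F (τ g y)) (F (τ g a)) := lt_of_lt_of_le hc p1
    have p20 : 0 < dist (F (τ g x)) (F (τ g a')) := lt_of_lt_of_le hc p2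
    rw [div_eq_div_iff (by positivity) (by positivity)] at hcr
    -- dist(Fgy,Fgx) dist(Fga,Fga') * (dist(Fy,Fa) dist(Fx,Fa')) = dist(Fy,Fx) dist(Fa,Fa') * (..)
    have L1 : dist (F (τ g y)) (F (τ g x)) * dist (F (τ g a)) (F (τ g a')) *
        (dist (F y) (F a) * dist (F x) (F a')) ≤ 8 * dist (F (τ g a)) (F (τ g a')) := by
      have z : 0 ≤ dist (F (τ g a)) (F (τ g a')) := dist_nonneg
      have z2 : dist (F y) (F a) * dist (F x) (F a') ≤ 2 * 2 :=
        mul_le_mul r1 r2 dist_nonneg (by norm_num)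
      have z3 : dist (F (τ g y)) (F (τ g x)) * (dist (F y) (F a) * dist (F x) (F a')) ≤ 2 * (2 * 2) :=
        mul_le_mul r3 z2 (by positivity) (by norm_num)
      calc _ = (dist (F (τ g y)) (F (τ g x)) * (dist (F y) (F a) * dist (F x) (F a'))) *
            dist (F (τ g a)) (F (τ g a')) := by ring
        _ ≤ (2 * (2 * 2)) * dist (F (τ g a)) (F (τ g a')) := mul_le_mul_of_nonneg_right z3 z
        _ = _ := by ring
    have L2 : δ * dist (F a) (F a') * c ^ 2 ≤ dist (F y) (F x) * dist (F a) (F a') *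
        (dist (F (τ g y)) (F (τ g a)) * dist (F (τ g x)) (F (τ g a'))) := by
      have z2 : c * c ≤ dist (F (τ g y)) (F (τ g a)) * dist (F (τ g x)) (F (τ g a')) :=
        mul_le_mul p1 p2 hc.le p10.le
      have z1 : δ * dist (F a) (F a') ≤ dist (F y) (F x) * dist (F a) (F a') :=
        mul_le_mul_of_nonneg_right hy hFa.le
      calc δ * dist (F a) (F a') * c ^ 2 = (δ * dist (F a) (F a')) * (c * c) := by ring
        _ ≤ _ := mul_le_mul z1 z2 (by positivity) (by positivity)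
    rw [hη]
    linarith
  have := le_of_tendsto_of_tendsto (tendsto_const_nhds (x := η)) hl key
  linarith

end Pool.Agent.Y320.CM
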