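import Pool.Agent.Y320.CM.Cont

set_option autoImplicit false
open Filter Topology

namespace Pool.Agent.Y320.CM

/-- the scaling function of a group element -/
theorem exists_scale (hS : S_SCALE) {G : Type} [Group G] {τ : G → Sph → Sph} (hA : Act G τ)
    (F : Sph → Sph) (hF : Function.Injective F) (hI : Inv G τ F) (g : G) :
    ∃ l : Sph → ℝ, (∀ a, 0 < l a) ∧
      ∀ a b, a ≠ b → dist (F a) (F b) ^ 2 = l a * l b * dist (F (τ g a)) (F (τ g b)) ^ 2 := by
  refine hS Sph (fun a b => dist (F a) (F b) ^ 2) (fun a b => dist (F (τ g a)) (F (τ g b)) ^ 2)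
    (fun a b => by simp only [dist_comm]) (fun a b => by simp only [dist_comm]) ?_ ?_ ?_
  · intro a b hab
    have : 0 < dist (F a) (F b) := dist_pos.2 (fun h => hab (hF h))
    positivity
  · intro a b hab
    have : 0 < dist (F (τ g a)) (F (τ g b)) :=
      dist_pos.2 (fun h => hab (tau_inj hA g (hF h)))
    positivity
  · intro a b c e hD
    have h := hI g a b c e hD
    unfold cr at h
    have h2 := congrArg (fun t : ℝ => t ^ 2) h.symm
    simpa only [div_pow, mul_pow] using h2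

theorem lin_tendsto {Y ι : Type} (𝓤 : Filter ι) (m : ι → Y → V) (m0 : Y → V)
    (h : ∀ a, Tendsto (fun i => m i a) 𝓤 (𝓝 (m0 a))) (c : Y →₀ ℝ) :
    Tendsto (fun i => Finsupp.linearCombination ℝ (m i) c) 𝓤
      (𝓝 (Finsupp.linearCombination ℝ m0 c)) := by
  simp only [Finsupp.linearCombination_apply, Finsupp.sum]
  exact tendsto_finset_sum _ fun a _ => (h a).const_smul _

theorem lin_tendsto' {Y ι : Type} (𝓤 : Filter ι) (m : ι → Y → V) (m0 : Y → V)
    (h : ∀ a, Tendsto (fun i => m i a) 𝓤 (𝓝 (m0 a))) (S : V →ₗ[ℝ] (Y →₀ ℝ))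
    (u : ι → V) (u0 : V) (hu : Tendsto u 𝓤 (𝓝 u0)) :
    Tendsto (fun i => Finsupp.linearCombination ℝ (m i) (S (u i))) 𝓤
      (𝓝 (Finsupp.linearCombination ℝ m0 (S u0))) := by
  have e1 : ∀ i, Finsupp.linearCombination ℝ (m i) (S (u i)) =
      ∑ j : Fin 4, u i j • Finsupp.linearCombination ℝ (m i) (S (fun k => if j = k then 1 else 0)) := by
    intro i
    exact LinearMap.pi_apply_eq_sum_univ ((Finsupp.linearCombination ℝ (m i)).comp S) (u i)
  have e2 : Finsupp.linearCombination ℝ m0 (S u0) =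
      ∑ j : Fin 4, u0 j • Finsupp.linearCombination ℝ m0 (S (fun k => if j = k then 1 else 0)) :=
    LinearMap.pi_apply_eq_sum_univ ((Finsupp.linearCombination ℝ m0).comp S) u0
  simp only [e1, e2]
  refine tendsto_finset_sum _ fun j _ => ?_
  exact ((tendsto_pi_nhds.1 hu) j).smul (lin_tendsto 𝓤 m m0 h _)

/-- Case B: the limits along the conical sequence are injective, which is impossible. -/
theorem cont_caseB (hS : S_SCALE) (hL : S_LIN) {G : Type} [Group G] {τ : G → Sph → Sph}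
    (hA : Act G τ) (F : Sph → Sph)
    (hF : Function.Injective F) (hI : Inv G τ F)
    (hsep : ∀ x y : Sph, x ≠ y → ∃ c : ℝ, 0 < c ∧ ∀ᶠ q in 𝓝 (x, y), c ≤ dist (F q.1) (F q.2))
    (x : Sph) (𝓦 : Ultrafilter G) (v w : Sph)
    (hw : Tendsto (fun g => τ g x) (𝓦 : Filter G) (𝓝 w))
    (hv : ∀ y, y ≠ x → Tendsto (fun g => τ g y) (𝓦 : Filter G) (𝓝 v))
    (L : Sph → Sph) (hLt : ∀ a, Tendsto (fun g => F (τ g a)) (𝓦 : Filter G) (𝓝 (L a)))
    (hLi : ∀ a a', a ≠ x → a' ≠ x → a ≠ a' → L a ≠ L a') : False := by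
  choose l hl0 hl using fun g => exists_scale hS hA F hF hI g
  -- limits of the scaling functions
  have hr : ∀ a b, a ≠ x → b ≠ x → a ≠ b → ∃ r : ℝ, 0 < r ∧
      Tendsto (fun g => l g a * l g b) (𝓦 : Filter G) (𝓝 r) := by
    intro a b ha hb hab
    have hd : 0 < dist (L a) (L b) := dist_pos.2 (hLi a b ha hb hab)
    have hd' : 0 < dist (F a) (F b) := dist_pos.2 (fun h => hab (hF h))
    refine ⟨dist (F a) (F b) ^ 2 / dist (L a) (L b) ^ 2, by positivity, ?_⟩
    have e : ∀ g, l g a * l g b = dist (F a) (F b) ^ 2 / dist (F (τ g a)) (F (τ g b)) ^ 2 := by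
      intro g
      have hp : 0 < dist (F (τ g a)) (F (τ g b)) :=
        dist_pos.2 (fun h => hab (tau_inj hA g (hF h)))
      rw [hl g a b hab, mul_div_assoc, div_self (by positivity), mul_one]
    simp only [e]
    refine Tendsto.div tendsto_const_nhds ?_ (by positivity)
    exact ((hLt a).dist (hLt b)).pow 2
  have hlim : ∀ a, ∃ r : ℝ, a ≠ x → 0 < r ∧ Tendsto (fun g => l g a) (𝓦 : Filter G) (𝓝 r) := by
    intro a
    by_cases ha : a = x
    · exact ⟨0, fun h => absurd ha h⟩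
    obtain ⟨b, hb⟩ := exists_new {a, x}
    obtain ⟨c, hc⟩ := exists_new {a, x, b}
    simp only [Finset.mem_insert, Finset.mem_singleton, not_or] at hb hc
    obtain ⟨r1, h1, t1⟩ := hr a b ha hb.2 (Ne.symm hb.1)
    obtain ⟨r2, h2, t2⟩ := hr a c ha hc.2.1 (Ne.symm hc.1)
    obtain ⟨r3, h3, t3⟩ := hr b c hb.2 hc.2.1 (Ne.symm hc.2.2)
    refine ⟨√(r1 * r2 / r3), fun _ => ⟨by positivity, ?_⟩⟩
    have e : ∀ g, l g a = √((l g a * l g b) * (l g a * l g c) / (l g b * l g c)) := by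
      intro g
      have p1 := hl0 g a
      have p2 := hl0 g b
      have p3 := hl0 g c
      have : (l g a * l g b) * (l g a * l g c) / (l g b * l g c) = l g a ^ 2 := by
        field_simp
      rw [this, Real.sqrt_sq p1.le]
    have := ((t1.mul t2).div t3 h3.ne').sqrt
    refine this.congr fun g => ?_
    exact (e g).symm
  choose ℓ hℓ using hlim
  -- linear algebra on the points different from x
  let Y : Type := {y : Sph // y ≠ x}
  let n : Y → V := fun a => N (F a.1)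
  let n' : G → Y → V := fun g a => l g a.1 • N (F (τ g a.1))
  let n0 : Y → V := fun a => ℓ a.1 • N (L a.1)
  obtain ⟨S, hS1, hS2⟩ := hL Y n
  have hnt : ∀ a : Y, Tendsto (fun g => n' g a) (𝓦 : Filter G) (𝓝 (n0 a)) := by
    intro a
    exact (hℓ a.1 a.2).2.smul ((continuous_N.tendsto _).comp (hLt a.1))
  have gram : ∀ g (a b : Y), B (n' g a) (n' g b) = B (n a) (n b) := by
    intro g a b
    show B (l g a.1 • N (F (τ g a.1))) (l g b.1 • N (F (τ g b.1))) = B (N (F a.1)) (N (F b.1))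
    rw [B_smul_left, B_smul_right, BN, BN]
    by_cases hab : a.1 = b.1
    · rw [hab, dist_self, dist_self]; ring
    · have := hl g a.1 b.1 hab
      rw [this]; ring
  have gram0 : ∀ (a b : Y), B (n0 a) (n0 b) = B (n a) (n b) := by
    intro a b
    have h1 : Tendsto (fun g => B (n' g a) (n' g b)) (𝓦 : Filter G) (𝓝 (B (n0 a) (n0 b))) :=
      (continuous_B.tendsto (n0 a, n0 b)).comp ((hnt a).prodMk_nhds (hnt b))
    have h2 : Tendsto (fun g => B (n' g a) (n' g b)) (𝓦 : Filter G) (𝓝 (B (n a) (n b))) := by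
      simp only [gram]; exact tendsto_const_nhds
    exact tendsto_nhds_unique h1 h2
  obtain ⟨ya, hya⟩ := exists_new {x}
  obtain ⟨yb, hyb⟩ := exists_new {x, ya}
  simp only [Finset.mem_insert, Finset.mem_singleton, not_or] at hya hyb
  have hM : ∀ g (a : Y), Finsupp.linearCombination ℝ (n' g) (S (n a)) = n' g a := by
    intro g
    refine hS2 (n' g) (gram g) ?_
    exact span_nondeg (n' g) (fun a : Y => F (τ g a.1)) (fun a : Y => l g a.1)
      (fun a => (hl0 g a.1).ne') (fun a => rfl) ⟨ya, hya⟩ ⟨yb, hyb.1⟩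
      (fun h => hyb.2 (tau_inj hA g (hF h)).symm)
  let M0 : V →ₗ[ℝ] V := (Finsupp.linearCombination ℝ n0).comp S
  have hM0 : ∀ a : Y, M0 (n a) = n0 a := by
    intro a
    have h1 : Tendsto (fun g => Finsupp.linearCombination ℝ (n' g) (S (n a))) (𝓦 : Filter G)
        (𝓝 (M0 (n a))) := lin_tendsto _ n' n0 hnt _
    have h2 : Tendsto (fun g => Finsupp.linearCombination ℝ (n' g) (S (n a))) (𝓦 : Filter G)
        (𝓝 (n0 a)) := by
      simp only [hM]; exact hnt a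
    exact tendsto_nhds_unique h1 h2
  have hM0c : Continuous M0 := LinearMap.continuous_of_finiteDimensional M0
  -- the point y0
  obtain ⟨y0, hy0⟩ := exists_new {v, w}
  simp only [Finset.mem_insert, Finset.mem_singleton, not_or] at hy0
  obtain ⟨c, hc, hcv⟩ := hsep v y0 (Ne.symm hy0.1)
  have hLy : ∀ a : Y, c ≤ dist (L a.1) (F y0) := by
    intro a
    have h1 : Tendsto (fun g => (τ g a.1, y0)) (𝓦 : Filter G) (𝓝 (v, y0)) :=
      (hv a.1 a.2).prodMk_nhds tendsto_const_nhds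
    have h2 := h1.eventually hcv
    exact ge_of_tendsto ((hLt a.1).dist tendsto_const_nhds) h2
  have hne : ∀ᶠ k in (𝓦 : Filter G), τ k⁻¹ y0 ≠ x := by
    have : ∀ᶠ k in (𝓦 : Filter G), τ k x ≠ y0 :=
      hw.eventually (isOpen_ne.mem_nhds (Ne.symm hy0.2))
    filter_upwards [this] with k hk h
    apply hk
    rw [← h, ← hA.mul, mul_inv_cancel, hA.one]
  obtain ⟨s, hs⟩ := exists_lim 𝓦 (fun k => F (τ k⁻¹ y0))
  have hNs : Tendsto (fun k => N (F (τ k⁻¹ y0))) (𝓦 : Filter G) (𝓝 (N s)) :=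
    (continuous_N.tendsto _).comp hs
  set U : V := M0 (N s) with hU
  have h4 : Tendsto (fun k => l k (τ k⁻¹ y0) • N (F y0)) (𝓦 : Filter G) (𝓝 U) := by
    have h1 : Tendsto (fun k => Finsupp.linearCombination ℝ (n' k) (S (N (F (τ k⁻¹ y0)))))
        (𝓦 : Filter G) (𝓝 U) := lin_tendsto' _ n' n0 hnt S _ _ hNs
    refine h1.congr' ?_
    filter_upwards [hne] with k hk
    have := hM k ⟨τ k⁻¹ y0, hk⟩
    show Finsupp.linearCombination ℝ (n' k) (S (n ⟨τ k⁻¹ y0, hk⟩)) = _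
    rw [this]
    show l k (τ k⁻¹ y0) • N (F (τ k (τ k⁻¹ y0))) = _
    rw [← hA.mul, mul_inv_cancel, hA.one]
  have h5 : Tendsto (fun k => M0 (N (F (τ k⁻¹ y0)))) (𝓦 : Filter G) (𝓝 U) :=
    (hM0c.tendsto _).comp hNs
  -- time component
  have h40 : Tendsto (fun k => l k (τ k⁻¹ y0)) (𝓦 : Filter G) (𝓝 (U 0)) := by
    have := (tendsto_pi_nhds.1 h4) 0
    simpa [N_zero] using this
  have hUN : U = U 0 • N (F y0) := tendsto_nhds_unique h4 (h40.smul_const _)
  have hU0 : 0 ≤ U 0 := ge_of_tendsto h40 (Eventually.of_forall fun k => (hl0 k _).le)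
  -- U ≠ 0
  obtain ⟨b, hbx, hbs⟩ : ∃ b : Sph, b ≠ x ∧ F b ≠ s := by
    by_contra hcon
    push Not at hcon
    exact hyb.2 (hF ((hcon yb hyb.1).trans (hcon ya hya).symm))
  have hBU : B U (M0 (N (F b))) = B (N s) (N (F b)) := by
    have h1 : Tendsto (fun k => B (M0 (N (F (τ k⁻¹ y0)))) (M0 (N (F b)))) (𝓦 : Filter G)
        (𝓝 (B U (M0 (N (F b))))) :=
      (continuous_B.tendsto (U, M0 (N (F b)))).comp (h5.prodMk_nhds tendsto_const_nhds)
    have h2 : Tendsto (fun k => B (N (F (τ k⁻¹ y0))) (N (F b))) (𝓦 : Filter G)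
        (𝓝 (B (N s) (N (F b)))) :=
      (continuous_B.tendsto (N s, N (F b))).comp (hNs.prodMk_nhds tendsto_const_nhds)
    refine tendsto_nhds_unique h1 (h2.congr' ?_)
    filter_upwards [hne] with k hk
    have e1 : M0 (N (F (τ k⁻¹ y0))) = n0 ⟨τ k⁻¹ y0, hk⟩ := hM0 ⟨τ k⁻¹ y0, hk⟩
    have e2 : M0 (N (F b)) = n0 ⟨b, hbx⟩ := hM0 ⟨b, hbx⟩
    rw [e1, e2, gram0]
  have hU1 : 0 < U 0 := by
    rcases hU0.lt_or_eq with h | h
    · exact h
    · exfalso
      rw [hUN, ← h, zero_smul, BN] at hBU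
      have hd : 0 < dist s (F b) := dist_pos.2 (Ne.symm hbs)
      have : B 0 (M0 (N (F b))) = 0 := by simp [B]
      rw [this] at hBU
      nlinarith
  -- final contradiction
  have h6 : Tendsto (fun k => B (M0 (N (F (τ k⁻¹ y0)))) (N (F y0))) (𝓦 : Filter G) (𝓝 0) := by
    have h1 : Tendsto (fun k => B (M0 (N (F (τ k⁻¹ y0)))) (N (F y0))) (𝓦 : Filter G)
        (𝓝 (B U (N (F y0)))) :=
      (continuous_B.tendsto (U, N (F y0))).comp (h5.prodMk_nhds tendsto_const_nhds)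
    have e : B U (N (F y0)) = 0 := by
      rw [hUN, B_smul_left, BN, dist_self]; ring
    rwa [e] at h1
  have h7 : Tendsto (fun k => (M0 (N (F (τ k⁻¹ y0)))) 0) (𝓦 : Filter G) (𝓝 (U 0)) :=
    (tendsto_pi_nhds.1 h5) 0
  have h8 : ∀ᶠ k in (𝓦 : Filter G),
      (M0 (N (F (τ k⁻¹ y0)))) 0 * (c ^ 2 / 2) ≤ - B (M0 (N (F (τ k⁻¹ y0)))) (N (F y0)) := by
    filter_upwards [hne] with k hk
    have e1 : M0 (N (F (τ k⁻¹ y0))) = ℓ (τ k⁻¹ y0) • N (L (τ k⁻¹ y0)) := hM0 ⟨τ k⁻¹ y0, hk⟩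
    have p := (hℓ _ hk).1
    have q := hLy ⟨τ k⁻¹ y0, hk⟩
    rw [e1, B_smul_left, BN]
    have e3 : (ℓ (τ k⁻¹ y0) • N (L (τ k⁻¹ y0))) 0 = ℓ (τ k⁻¹ y0) := by
      simp [N_zero]
    rw [e3]
    have q2 : c ^ 2 ≤ dist (L (τ k⁻¹ y0)) (F y0) ^ 2 := by
      exact pow_le_pow_left₀ hc.le q 2
    nlinarith
  have h9 := le_of_tendsto_of_tendsto (h7.mul_const (c ^ 2 / 2)) h6.neg h8
  have : 0 < U 0 * (c ^ 2 / 2) := by positivity
  linarith

theorem cont (hS : S_SCALE) (hL : S_LIN) : S_CONT := by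
  intro G _ τ hA F hF hI hsep
  rw [continuous_iff_continuousAt]
  intro x
  obtain ⟨𝓦, v, w, hvw, hw, hv⟩ := hA.con x
  choose L hLt using fun a => exists_lim 𝓦 (fun g => F (τ g a))
  by_cases hd : ∃ a a', a ≠ x ∧ a' ≠ x ∧ a ≠ a' ∧ L a = L a'
  · obtain ⟨a, a', ha, ha', haa, hLL⟩ := hd
    refine cont_caseA hA F hF hI hsep x 𝓦 v w hvw hw hv a a' ha ha' haa ?_
    have := (hLt a).dist (hLt a')
    rwa [hLL, dist_self] at this
  · exfalso
    push Not at hd
    exact cont_caseB hS hL hA F hF hI hsep x 𝓦 v w hw hv L hLt hd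

end Pool.Agent.Y320.CM
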