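import Pool.Agent.Y320.CM.AM

set_option autoImplicit false
open Filter Topology

namespace Pool.Agent.Y320.CM

/-- `d` is the word metric of the group `G` with respect to the finite generating set `S`
(graph distance of the Cayley graph) -/
def IsWordMetric (G : Type) [Group G] (S : Finset G) (d : G → G → ℝ) : Prop :=
  Subgroup.closure (S : Set G) = ⊤ ∧
    ∀ x y, d x y = ((SimpleGraph.fromRel (fun a b : G => a⁻¹ * b ∈ S)).dist x y : ℝ)

/-- Gromov hyperbolicity -/
def IsHyperbolic {G : Type} (d : G → G → ℝ) : Prop :=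
  ∃ δ : ℝ, ∀ w x y z, min (gp d w x y) (gp d w y z) - δ ≤ gp d w x z

/-- Condition (A): `U` is a nonempty open set of the boundary with a net of maps to the sphere
whose cross ratios are locally bounded and asymptotically invariant on `U`. -/
def AsymptoticCoordinates (G : Type) [Group G] (τ : G → Sph → Sph) (U : Set Sph) : Prop :=
  IsOpen U ∧ U.Nonempty ∧ ∃ (ι : Type) (l : Filter ι) (ψ : ι → Sph → Sph), l.NeBot ∧
    Coord G τ U l ψ

/-- Condition (B): in the coordinate `ψ`, which is continuous and injective on a neighbourhood of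
`p`, the action is asymptotically Moebius at the point `p`. -/
def AsymptoticallyMoebiusAt (G : Type) [Group G] (τ : G → Sph → Sph) (p : Sph)
    (ψ : Sph → Sph) : Prop :=
  (∃ O ∈ 𝓝 p, ContinuousOn ψ O ∧ Set.InjOn ψ O) ∧
  ∀ ε : ℝ, 0 < ε → ∃ W ∈ 𝓝 p, ∀ (g : G) (a b c e : Sph), a ∈ W → b ∈ W → c ∈ W → e ∈ W →
    D4 a b c e → τ g a ∈ W → τ g b ∈ W → τ g c ∈ W → τ g e ∈ W →
    |cr (ψ (τ g a)) (ψ (τ g b)) (ψ (τ g c)) (ψ (τ g e)) / cr (ψ a) (ψ b) (ψ c) (ψ e) - 1| ≤ ε

/-- `G` acts properly discontinuously and cocompactly by isometries on hyperbolic 3-space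
(hyperboloid model `Hyp`). -/
def ActsGeometrically (G : Type) [Group G] : Prop :=
  ∃ ρ : G →* Matrix (Fin 4) (Fin 4) ℝ,
    (∀ g : G, ∀ v ∈ Hyp, Matrix.mulVec (ρ g) v ∈ Hyp) ∧
    (∀ K : Set V, IsCompact K → K ⊆ Hyp →
      Set.Finite {g : G | ∃ v ∈ K, Matrix.mulVec (ρ g) v ∈ K}) ∧
    (∃ K : Set V, IsCompact K ∧ K ⊆ Hyp ∧
      ∀ v ∈ Hyp, ∃ g : G, ∃ w ∈ K, Matrix.mulVec (ρ g) w = v)

theorem hypD_of {G : Type} [Group G] (S : Finset G) (d : G → G → ℝ) (hd : IsWordMetric G S d)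
    (hh : IsHyperbolic d) : ∃ δ, HypD G d δ := by
  obtain ⟨δ, hδ⟩ := hh
  refine Pool.Agent.Y37.CM.t_CAY G S hd.1 d hd.2 ⟨δ, fun w x y z => ?_⟩
  have := hδ w x y z
  simp only [gp] at this
  have e : min (d w x + d w y - d x y) (d w y + d w z - d y z) / 2 =
      min ((d w x + d w y - d x y) / 2) ((d w y + d w z - d y z) / 2) :=
    (min_div_div_right (by norm_num : (0 : ℝ) ≤ 2) _ _).symm
  rw [e]
  exact this

end Pool.Agent.Y320.CM
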