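import Pool.Agent.Y320.CM.Fin
import Pool.Agent.Y320.CM.ExC

set_option autoImplicit false
open Filter Topology

namespace Pool.Agent.Y320.CM

/-- the cross ratio of four complex numbers -/
noncomputable def cc (z1 z2 z3 z4 : ℂ) : ℂ := (z1 - z2) * (z3 - z4) / ((z1 - z3) * (z2 - z4))

/-- Condition (A): `U` is a nonempty open subset of the boundary and `ψ` is a net of maps
`ψ i : U → ℂ`, whose cross ratios are locally bounded and asymptotically invariant on `U`. -/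
def AsymptoticComplexCoordinates (G : Type) [Group G] (τ : G → Sph → Sph) (U : Set Sph)
    {ι : Type} (l : Filter ι) (ψ : ι → Sph → ℂ) : Prop :=
  IsOpen U ∧ U.Nonempty ∧ l.NeBot ∧
  (∀ a b c e : Sph, a ∈ U → b ∈ U → c ∈ U → e ∈ U → D4 a b c e →
    ∃ R : ℝ, 0 < R ∧ ∀ᶠ q in 𝓝 (a, b, c, e), ∀ᶠ i in l,
      R⁻¹ ≤ ‖cc (ψ i q.1) (ψ i q.2.1) (ψ i q.2.2.1) (ψ i q.2.2.2)‖ ∧
      ‖cc (ψ i q.1) (ψ i q.2.1) (ψ i q.2.2.1) (ψ i q.2.2.2)‖ ≤ R) ∧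
  (∀ (g : G) (a b c e : Sph), a ∈ U → b ∈ U → c ∈ U → e ∈ U → D4 a b c e →
    τ g a ∈ U → τ g b ∈ U → τ g c ∈ U → τ g e ∈ U →
    Tendsto (fun i => cc (ψ i (τ g a)) (ψ i (τ g b)) (ψ i (τ g c)) (ψ i (τ g e)) /
      cc (ψ i a) (ψ i b) (ψ i c) (ψ i e)) l (𝓝 1))

/-- Condition (B): in the complex coordinate `ψ`, which is continuous and injective on a
neighbourhood of the point `p`, the action is asymptotically Moebius at `p`. -/
def AsymptoticallyConformalAt (G : Type) [Group G] (τ : G → Sph → Sph) (p : Sph)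
    (ψ : Sph → ℂ) : Prop :=
  (∃ O ∈ 𝓝 p, ContinuousOn ψ O ∧ Set.InjOn ψ O) ∧
  ∀ ε : ℝ, 0 < ε → ∃ W ∈ 𝓝 p, ∀ (g : G) (a b c e : Sph), a ∈ W → b ∈ W → c ∈ W → e ∈ W →
    D4 a b c e → τ g a ∈ W → τ g b ∈ W → τ g c ∈ W → τ g e ∈ W →
    ‖cc (ψ (τ g a)) (ψ (τ g b)) (ψ (τ g c)) (ψ (τ g e)) / cc (ψ a) (ψ b) (ψ c) (ψ e) - 1‖ ≤ ε

/-- `G` is isomorphic to a discrete cocompact subgroup of `PSL(2, ℂ)`: there is a subgroup `Γ` of
`SL(2, ℂ)` with a surjection `ψ` onto `G` whose kernel is the intersection with the centre, which is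
discrete in `PSL(2, ℂ)` and cocompact. -/
def IsUniformLatticePSL2C (G : Type) [Group G] : Prop :=
  ∃ (Γ : Subgroup (Matrix.SpecialLinearGroup (Fin 2) ℂ)) (ψ : Γ →* G),
    Function.Surjective ψ ∧
    ψ.ker = (Subgroup.center (Matrix.SpecialLinearGroup (Fin 2) ℂ)).subgroupOf Γ ∧
    (∃ U ∈ nhds (1 : Matrix (Fin 2) (Fin 2) ℂ), ∀ γ ∈ Γ,
      ((γ : Matrix.SpecialLinearGroup (Fin 2) ℂ) : Matrix (Fin 2) (Fin 2) ℂ) ∈ U → γ = 1) ∧
    (∃ K : Set (Matrix (Fin 2) (Fin 2) ℂ), IsCompact K ∧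
      ∀ g : Matrix.SpecialLinearGroup (Fin 2) ℂ, ∃ γ ∈ Γ,
        ((γ * g : Matrix.SpecialLinearGroup (Fin 2) ℂ) : Matrix (Fin 2) (Fin 2) ℂ) ∈ K)

theorem chi_sg' (z1 z2 z3 z4 : ℂ) : chi (sg z1) (sg z2) (sg z3) (sg z4) = cc z1 z2 z3 z4 := by
  rw [chi_sg, cc]

theorem coordC_of {G : Type} [Group G] {τ : G → Sph → Sph} {U : Set Sph} {ι : Type}
    {l : Filter ι} {ψ : ι → Sph → ℂ} (h : AsymptoticComplexCoordinates G τ U l ψ) :
    CoordC G τ U l (fun i x => sg (ψ i x)) := by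
  obtain ⟨-, -, -, h1, h2⟩ := h
  refine ⟨?_, ?_⟩
  · intro a b c e ha hb hc he hD
    obtain ⟨R, hR, h⟩ := h1 a b c e ha hb hc he hD
    refine ⟨R, hR, ?_⟩
    simp only [← norm_chi, chi_sg']
    exact h
  · intro g a b c e ha hb hc he hD h3 h4 h5 h6
    simp only [chi_sg']
    exact h2 g a b c e ha hb hc he hD h3 h4 h5 h6

theorem psl_of_coord (hN : S_NORMC) (hL : S_NORMC → S_LIMC) (hS : S_SPIN) (hPA : S_PSLA)
    (hPB : S_PSLB) (hPC : S_PSLC) {G : Type} [Group G] {τ : G → Sph → Sph} (hA : Act G τ)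
    (htf : ∀ g : G, g ≠ 1 → orderOf g = 0)
    {U : Set Sph} {ι : Type} {l : Filter ι} {ψ : ι → Sph → ℂ}
    (h : AsymptoticComplexCoordinates G τ U l ψ) : IsUniformLatticePSL2C G := by
  obtain ⟨F, hF, hI, hB⟩ := exC (hL hN) G τ hA U h.1 h.2.1 ι l _ h.2.2.1 (coordC_of h)
  have hI' : Inv G τ F := by
    intro g a b c e hD
    rw [← norm_chi, ← norm_chi, hI g a b c e hD]
  have hsep := Pool.Agent.Y781.CM.sep F hF hB
  have hc : Continuous F := cont Pool.Agent.Y73.CM.scale Pool.Agent.Y73.CM.lin G τ hA F hF hI' hsep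
  have hsu : Function.Surjective F := Pool.Agent.Y438.CM.surj F hc hF
  have hrel := hS G τ hA.one hA.mul F hF hI
  obtain ⟨Γ, χ, h1, h2, h3, h4⟩ := hPA G τ hA htf F ⟨hF, hsu⟩ hrel
  refine ⟨Γ, χ, h3, h4, ?_, ?_⟩
  · exact hPB G τ hA F hc ⟨hF, hsu⟩ Γ (fun A hA' => (h2 A).1 hA')
  · refine hPC G τ hA F hc ⟨hF, hsu⟩ Γ (fun g => ?_)
    obtain ⟨A, hAr⟩ := hrel g
    exact ⟨A, (h2 A).2 ⟨g, hAr⟩, hAr⟩

end Pool.Agent.Y320.CM
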