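import Pool.Agent.Y320.CM.ContB
import Pool.Agent.Y37.CM.Cay
import Pool.Agent.Y37.CM.Nhd
import Pool.Agent.Y587.CM.Ray
import Pool.Agent.Y145.CM.Attr
import Pool.Agent.Y664.CM.Nofix
import Pool.Agent.Y758.CM.Contr
import Pool.Agent.Y970.CM.Coc
import Pool.Agent.Y587.CM.Norm
import Pool.Agent.Y781.CM.LimSep
import Pool.Agent.Y872.CM.Ex
import Pool.Agent.Y73.CM.Alg
import Pool.Agent.Y438.CM.Surj
import Pool.Agent.Y161.CM.RepA
import Pool.Agent.Y638.CM.RepB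
import Pool.Agent.Y31.CM.Repc

set_option autoImplicit false
open Filter Topology

namespace Pool.Agent.Y320.CM

/-- The boundary action of a hyperbolic group whose boundary is the sphere has all the properties
collected in `Act`. -/
theorem act_of_hyp {G : Type} [Group G] {d : G → G → ℝ} {δ : ℝ} {φ : (ℕ → G) → Sph}
    {τ : G → Sph → Sph} (h : HypD G d δ) (b : Bd d φ) (e : Eqv d φ τ) : Act G τ := by
  have hN := Pool.Agent.Y37.CM.t_NHD
  have hA := Pool.Agent.Y37.CM.t_ACTC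
  have hR := Pool.Agent.Y587.CM.t_RAY
  have hU := Pool.Agent.Y587.CM.t_RAYU
  have hL := Pool.Agent.Y587.CM.t_LIMPT
  have hT := Pool.Agent.Y145.CM.attr hN hA
  have hC := Pool.Agent.Y145.CM.con hN hA hU hL hT
  have hF := Pool.Agent.Y664.CM.t_NOFIX hA hR
  have hX := Pool.Agent.Y758.CM.contr hA hU hL hT hF
  have hP := Pool.Agent.Y758.CM.prop hL hT
  have hQ := Pool.Agent.Y970.CM.t_COC hA
  obtain ⟨-, h1, h2, h3⟩ := hA G d δ φ τ h b e
  exact
    { one := h1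
      mul := h2
      cont := h3
      contr := hX G d δ φ τ h b e
      con := hC G d δ φ τ h b e
      prop := hP G d δ φ τ h b e
      coc := hQ G d δ φ τ h b e }

/-- an invariant coordinate gives a representation with all properties -/
theorem rep_of_coord {G : Type} [Group G] {τ : G → Sph → Sph} (hA : Act G τ)
    (U : Set Sph) (hU : IsOpen U) (hne : U.Nonempty) {ι : Type} (l : Filter ι) [l.NeBot]
    (ψ : ι → Sph → Sph) (hψ : Coord G τ U l ψ) :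
    ∃ (F : Sph → Sph) (ρ : G →* Matrix (Fin 4) (Fin 4) ℝ) (s : G → Sph → ℝ),
      Continuous F ∧ Function.Bijective F ∧ Inv G τ F ∧
      (∀ g a, 0 < s g a) ∧
      (∀ g a, Matrix.mulVec (ρ g) (N (F a)) = s g a • N (F (τ g a))) ∧
      (∀ g v w, B (Matrix.mulVec (ρ g) v) (Matrix.mulVec (ρ g) w) = B v w) := by
  have hS := Pool.Agent.Y73.CM.scale
  have hLi := Pool.Agent.Y73.CM.lin
  have hLim := Pool.Agent.Y781.CM.lim Pool.Agent.Y587.CM.t_NORM
  obtain ⟨F, hF, hI, hB⟩ := Pool.Agent.Y872.CM.ex hLim G τ hA U hU hne ι l ψ inferInstance hψ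
  have hsep := Pool.Agent.Y781.CM.sep F hF hB
  have hc : Continuous F := cont hS hLi G τ hA F hF hI hsep
  have hsu : Function.Surjective F := Pool.Agent.Y438.CM.surj F hc hF
  obtain ⟨ρ, s, h1, h2, h3⟩ := Pool.Agent.Y161.CM.RepA.main hS hLi G τ hA.one hA.mul F ⟨hF, hsu⟩ hI
  exact ⟨F, ρ, s, hc, ⟨hF, hsu⟩, hI, h1, h2, h3⟩

theorem geometric_of_coord {G : Type} [Group G] {τ : G → Sph → Sph} (hA : Act G τ)
    (U : Set Sph) (hU : IsOpen U) (hne : U.Nonempty) {ι : Type} (l : Filter ι) [l.NeBot]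
    (ψ : ι → Sph → Sph) (hψ : Coord G τ U l ψ) :
    ∃ ρ : G →* Matrix (Fin 4) (Fin 4) ℝ,
      (∀ g : G, ∀ v ∈ Hyp, Matrix.mulVec (ρ g) v ∈ Hyp) ∧
      (∀ K : Set V, IsCompact K → K ⊆ Hyp →
        Set.Finite {g : G | ∃ v ∈ K, Matrix.mulVec (ρ g) v ∈ K}) ∧
      (∃ K : Set V, IsCompact K ∧ K ⊆ Hyp ∧
        ∀ v ∈ Hyp, ∃ g : G, ∃ w ∈ K, Matrix.mulVec (ρ g) w = v) := by
  obtain ⟨F, ρ, s, hc, hb, -, h1, h2, h3⟩ := rep_of_coord hA U hU hne l ψ hψ
  obtain ⟨hH, hP⟩ := Pool.Agent.Y638.CM.t_REPB G τ hA F hc hb ρ s h1 h2 h3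
  exact ⟨ρ, hH, hP, Pool.Agent.Y31.CM.repc G τ hA F hc hb ρ s h1 h2 h3 hH⟩

end Pool.Agent.Y320.CM
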