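import Mathlib

/-!
# Project CM: hyperbolic groups with locally asymptotically Moebius sphere boundary

Definitions and statements (`S_...`) of the jobs.  Everything is elementary.
-/

set_option autoImplicit false
open Filter Topology

namespace Pool.Agent.Y320.CM

/-- the unit sphere of ℝ³ -/
abbrev Sph : Type := Metric.sphere (0 : EuclideanSpace ℝ (Fin 3)) 1

/-- the absolute cross ratio of four points of the sphere (chordal distance) -/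
noncomputable def cr (a b c e : Sph) : ℝ := dist a b * dist c e / (dist a c * dist b e)

/-- four pairwise distinct points -/
def D4 {Y : Type*} (a b c e : Y) : Prop := a ≠ b ∧ a ≠ c ∧ a ≠ e ∧ b ≠ c ∧ b ≠ e ∧ c ≠ e

/-! ## Lorentz space -/

/-- `ℝ⁴`, coordinate `0` is time -/
abbrev V : Type := Fin 4 → ℝ

/-- the Lorentz form -/
def B (v w : V) : ℝ := -(v 0 * w 0) + v 1 * w 1 + v 2 * w 2 + v 3 * w 3

/-- the null vector over a point of the sphere -/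
noncomputable def N (p : Sph) : V := ![1, p.1 0, p.1 1, p.1 2]

/-- the upper sheet of the hyperboloid -/
def Hyp : Set V := {v | 0 < v 0 ∧ -(v 0) ^ 2 + (v 1) ^ 2 + (v 2) ^ 2 + (v 3) ^ 2 = -1}

/-! ## Hyperbolic groups -/

/-- Gromov product of `x`, `y` based at `w` -/
noncomputable def gp {G : Type} (d : G → G → ℝ) (w x y : G) : ℝ := (d w x + d w y - d x y) / 2

/-- `d` is the word metric of a finitely generated `δ`-hyperbolic group -/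
structure HypD (G : Type) [Group G] (d : G → G → ℝ) (δ : ℝ) : Prop where
  nat : ∀ x y, ∃ n : ℕ, d x y = n
  self : ∀ x, d x x = 0
  eq : ∀ x y, d x y = 0 → x = y
  symm : ∀ x y, d x y = d y x
  tri : ∀ x y z, d x z ≤ d x y + d y z
  left : ∀ g x y, d (g * x) (g * y) = d x y
  fin : ∀ r : ℝ, {g : G | d 1 g ≤ r}.Finite
  geo : ∀ x y, ∀ n : ℕ, (n : ℝ) ≤ d x y → ∃ z, d x z = n ∧ d z y = d x y - n
  nonneg : 0 ≤ δ
  hyp : ∀ w x y z, min (gp d w x y) (gp d w y z) - δ ≤ gp d w x z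

/-- Gromov sequences -/
def CI {G : Type} [Group G] (d : G → G → ℝ) (x : ℕ → G) : Prop :=
  ∀ K : ℝ, ∃ M : ℕ, ∀ i j : ℕ, M ≤ i → M ≤ j → K ≤ gp d 1 (x i) (x j)

/-- eventually the Gromov product of the two sequences is at least `K` -/
def Near {G : Type} [Group G] (d : G → G → ℝ) (K : ℝ) (x y : ℕ → G) : Prop :=
  ∃ M : ℕ, ∀ i j : ℕ, M ≤ i → M ≤ j → K ≤ gp d 1 (x i) (y j)

/-- `φ` identifies the Gromov boundary with the sphere -/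
structure Bd {G : Type} [Group G] (d : G → G → ℝ) (φ : (ℕ → G) → Sph) : Prop where
  surj : ∀ p, ∃ x, CI d x ∧ φ x = p
  eqv : ∀ x y, CI d x → CI d y → (φ x = φ y ↔ ∀ K : ℝ, Near d K x y)
  top : ∀ (X : ℕ → ℕ → G) (x : ℕ → G), (∀ n, CI d (X n)) → CI d x →
    (Tendsto (fun n => φ (X n)) atTop (𝓝 (φ x)) ↔ ∀ K : ℝ, ∀ᶠ n in atTop, Near d K (X n) x)

/-- `τ` is the action of the group on its boundary -/
def Eqv {G : Type} [Group G] (d : G → G → ℝ) (φ : (ℕ → G) → Sph) (τ : G → Sph → Sph) : Prop :=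
  ∀ g x, CI d x → τ g (φ x) = φ (fun i => g * x i)

/-- the ultrafilter `𝓦` on the group converges to the boundary point represented by `y` -/
def Conv {G : Type} [Group G] (d : G → G → ℝ) (𝓦 : Ultrafilter G) (y : ℕ → G) : Prop :=
  ∀ K : ℝ, ∀ᶠ g in (𝓦 : Filter G), ∃ M : ℕ, ∀ j, M ≤ j → K ≤ gp d 1 g (y j)

/-- what we need about the action of a hyperbolic group on its boundary sphere -/
structure Act (G : Type) [Group G] (τ : G → Sph → Sph) : Prop where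
  one : ∀ x, τ 1 x = x
  mul : ∀ g h x, τ (g * h) x = τ g (τ h x)
  cont : ∀ g, Continuous (τ g)
  contr : ∀ (A : Finset Sph) (U : Set Sph), IsOpen U → U.Nonempty → ∃ g, ∀ a ∈ A, τ g a ∈ U
  con : ∀ x, ∃ (𝓦 : Ultrafilter G) (v w : Sph), v ≠ w ∧
    Tendsto (fun g => τ g x) (𝓦 : Filter G) (𝓝 w) ∧
    ∀ y, y ≠ x → Tendsto (fun g => τ g y) (𝓦 : Filter G) (𝓝 v)
  prop : ∀ a b e : Sph, a ≠ b → a ≠ e → b ≠ e → ∀ c : ℝ, 0 < c →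
    {g : G | c ≤ dist (τ g a) (τ g b) ∧ c ≤ dist (τ g a) (τ g e) ∧
      c ≤ dist (τ g b) (τ g e)}.Finite
  coc : ∃ c : ℝ, 0 < c ∧ ∀ a b e : Sph, a ≠ b → a ≠ e → b ≠ e → ∃ g,
    c ≤ dist (τ g a) (τ g b) ∧ c ≤ dist (τ g a) (τ g e) ∧ c ≤ dist (τ g b) (τ g e)

/-! ## Statements: hyperbolic part -/

def S_CAY : Prop :=
  ∀ (G : Type) [Group G] (S : Finset G), Subgroup.closure (S : Set G) = ⊤ →
  ∀ (d : G → G → ℝ),
    (∀ x y, d x y = ((SimpleGraph.fromRel (fun a b : G => a⁻¹ * b ∈ S)).dist x y : ℝ)) →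
  (∃ δ : ℝ, ∀ w x y z : G,
      min (d w x + d w y - d x y) (d w y + d w z - d y z) / 2 - δ
        ≤ (d w x + d w z - d x z) / 2) →
  ∃ δ, HypD G d δ

def S_NHD : Prop :=
  ∀ (G : Type) [Group G] (d : G → G → ℝ) (δ : ℝ) (φ : (ℕ → G) → Sph),
    HypD G d δ → Bd d φ → ∀ y, CI d y →
    (∀ K : ℝ, {p | ∃ x, CI d x ∧ φ x = p ∧ Near d K x y} ∈ 𝓝 (φ y)) ∧
    (∀ O ∈ 𝓝 (φ y), ∃ K : ℝ, ∀ x, CI d x → Near d K x y → φ x ∈ O)

def S_ACTC : Prop :=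
  ∀ (G : Type) [Group G] (d : G → G → ℝ) (δ : ℝ) (φ : (ℕ → G) → Sph) (τ : G → Sph → Sph),
    HypD G d δ → Bd d φ → Eqv d φ τ →
    (∀ g x, CI d x → CI d (fun i => g * x i)) ∧
    (∀ x, τ 1 x = x) ∧ (∀ g h x, τ (g * h) x = τ g (τ h x)) ∧ (∀ g, Continuous (τ g))

def S_LIMPT : Prop :=
  ∀ (G : Type) [Group G] (d : G → G → ℝ) (δ : ℝ), HypD G d δ →
    ∀ 𝓦 : Ultrafilter G, (𝓦 : Filter G) ≤ cofinite → ∃ y, CI d y ∧ Conv d 𝓦 y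

/-- sequence version: points `z t` at distance exactly `t` from `1` on the way to the boundary
point represented by `x` -/
def S_RAY : Prop :=
  ∀ (G : Type) [Group G] (d : G → G → ℝ) (δ : ℝ), HypD G d δ → ∀ x, CI d x →
    ∃ z : ℕ → G, (∀ t : ℕ, d 1 (z t) = t) ∧
      ∀ t : ℕ, ∃ M : ℕ, ∀ i, M ≤ i → (t : ℝ) - δ ≤ gp d 1 (x i) (z t)

/-- ultrafilter version -/
def S_RAYU : Prop :=
  ∀ (G : Type) [Group G] (d : G → G → ℝ) (δ : ℝ), HypD G d δ → ∀ x, CI d x →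
    ∃ 𝓦 : Ultrafilter G, (𝓦 : Filter G) ≤ cofinite ∧ Conv d 𝓦 x ∧
      ∀ᶠ g in (𝓦 : Filter G), ∃ M : ℕ, ∀ i, M ≤ i → d 1 g - δ ≤ gp d 1 (x i) g

def S_ATTR : Prop :=
  ∀ (G : Type) [Group G] (d : G → G → ℝ) (δ : ℝ) (φ : (ℕ → G) → Sph) (τ : G → Sph → Sph),
    HypD G d δ → Bd d φ → Eqv d φ τ →
    ∀ (𝓦 : Ultrafilter G) (y z : ℕ → G), (𝓦 : Filter G) ≤ cofinite → CI d y → CI d z →
      Conv d 𝓦 y → Conv d (𝓦.map (fun g => g⁻¹)) z →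
      ∀ p : Sph, p ≠ φ z → Tendsto (fun g => τ g p) (𝓦 : Filter G) (𝓝 (φ y))

def S_CON : Prop :=
  ∀ (G : Type) [Group G] (d : G → G → ℝ) (δ : ℝ) (φ : (ℕ → G) → Sph) (τ : G → Sph → Sph),
    HypD G d δ → Bd d φ → Eqv d φ τ →
    ∀ x, ∃ (𝓦 : Ultrafilter G) (v w : Sph), v ≠ w ∧
      Tendsto (fun g => τ g x) (𝓦 : Filter G) (𝓝 w) ∧
      ∀ y, y ≠ x → Tendsto (fun g => τ g y) (𝓦 : Filter G) (𝓝 v)

def S_NOFIX : Prop :=
  ∀ (G : Type) [Group G] (d : G → G → ℝ) (δ : ℝ) (φ : (ℕ → G) → Sph) (τ : G → Sph → Sph),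
    HypD G d δ → Bd d φ → Eqv d φ τ → ∀ q : Sph, ∃ g, τ g q ≠ q

def S_CONTR : Prop :=
  ∀ (G : Type) [Group G] (d : G → G → ℝ) (δ : ℝ) (φ : (ℕ → G) → Sph) (τ : G → Sph → Sph),
    HypD G d δ → Bd d φ → Eqv d φ τ →
    ∀ (A : Finset Sph) (U : Set Sph), IsOpen U → U.Nonempty → ∃ g, ∀ a ∈ A, τ g a ∈ U

def S_PROP : Prop :=
  ∀ (G : Type) [Group G] (d : G → G → ℝ) (δ : ℝ) (φ : (ℕ → G) → Sph) (τ : G → Sph → Sph),
    HypD G d δ → Bd d φ → Eqv d φ τ →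
    ∀ a b e : Sph, a ≠ b → a ≠ e → b ≠ e → ∀ c : ℝ, 0 < c →
    {g : G | c ≤ dist (τ g a) (τ g b) ∧ c ≤ dist (τ g a) (τ g e) ∧
      c ≤ dist (τ g b) (τ g e)}.Finite

def S_COC : Prop :=
  ∀ (G : Type) [Group G] (d : G → G → ℝ) (δ : ℝ) (φ : (ℕ → G) → Sph) (τ : G → Sph → Sph),
    HypD G d δ → Bd d φ → Eqv d φ τ →
    ∃ c : ℝ, 0 < c ∧ ∀ a b e : Sph, a ≠ b → a ≠ e → b ≠ e → ∃ g,
      c ≤ dist (τ g a) (τ g b) ∧ c ≤ dist (τ g a) (τ g e) ∧ c ≤ dist (τ g b) (τ g e)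

/-! ## Statements: Moebius part -/

def S_NORM : Prop :=
  ∀ p1 p2 p3 : Sph, p1 ≠ p2 → p1 ≠ p3 → p2 ≠ p3 → ∃ Φ : Sph → Sph,
    (∀ a b c e, cr (Φ a) (Φ b) (Φ c) (Φ e) = cr a b c e) ∧
    dist (Φ p1) (Φ p2) = √3 ∧ dist (Φ p1) (Φ p3) = √3 ∧ dist (Φ p2) (Φ p3) = √3

def S_LIM : Prop :=
  ∀ (Y ι : Type) (𝓤 : Ultrafilter ι) (f : ι → Y → Sph) (c : Y → Y → Y → Y → ℝ)
    (a1 a2 a3 a4 : Y), D4 a1 a2 a3 a4 →
    (∀ a b e h, D4 a b e h → 0 < c a b e h ∧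
      Tendsto (fun i => cr (f i a) (f i b) (f i e) (f i h)) (𝓤 : Filter ι) (𝓝 (c a b e h))) →
    ∃ F : Y → Sph, Function.Injective F ∧
      ∀ a b e h, D4 a b e h → cr (F a) (F b) (F e) (F h) = c a b e h

/-- The hypothesis: locally bounded and asymptotically invariant cross ratios on `U`. -/
def Coord (G : Type) [Group G] (τ : G → Sph → Sph) (U : Set Sph) {ι : Type} (l : Filter ι)
    (ψ : ι → Sph → Sph) : Prop :=
  (∀ a b c e : Sph, a ∈ U → b ∈ U → c ∈ U → e ∈ U → D4 a b c e →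
    ∃ R : ℝ, 0 < R ∧ ∀ᶠ q in 𝓝 (a, b, c, e), ∀ᶠ i in l,
      R⁻¹ ≤ cr (ψ i q.1) (ψ i q.2.1) (ψ i q.2.2.1) (ψ i q.2.2.2) ∧
      cr (ψ i q.1) (ψ i q.2.1) (ψ i q.2.2.1) (ψ i q.2.2.2) ≤ R) ∧
  (∀ (g : G) (a b c e : Sph), a ∈ U → b ∈ U → c ∈ U → e ∈ U → D4 a b c e →
    τ g a ∈ U → τ g b ∈ U → τ g c ∈ U → τ g e ∈ U →
    Tendsto (fun i => cr (ψ i (τ g a)) (ψ i (τ g b)) (ψ i (τ g c)) (ψ i (τ g e)) /
      cr (ψ i a) (ψ i b) (ψ i c) (ψ i e)) l (𝓝 1))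

/-- cross ratios of `F` are invariant under the action -/
def Inv (G : Type) [Group G] (τ : G → Sph → Sph) (F : Sph → Sph) : Prop :=
  ∀ (g : G) (a b c e : Sph), D4 a b c e →
    cr (F (τ g a)) (F (τ g b)) (F (τ g c)) (F (τ g e)) = cr (F a) (F b) (F c) (F e)

def S_EX : Prop :=
  ∀ (G : Type) [Group G] (τ : G → Sph → Sph), Act G τ → ∀ U : Set Sph, IsOpen U → U.Nonempty →
    ∀ (ι : Type) (l : Filter ι) (ψ : ι → Sph → Sph), l.NeBot → Coord G τ U l ψ →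
    ∃ F : Sph → Sph, Function.Injective F ∧ Inv G τ F ∧
      ∀ a b c e : Sph, D4 a b c e → ∃ R : ℝ, 0 < R ∧ ∀ᶠ q in 𝓝 (a, b, c, e),
        R⁻¹ ≤ cr (F q.1) (F q.2.1) (F q.2.2.1) (F q.2.2.2) ∧
        cr (F q.1) (F q.2.1) (F q.2.2.1) (F q.2.2.2) ≤ R

def S_SEP : Prop :=
  ∀ F : Sph → Sph, Function.Injective F →
    (∀ a b c e : Sph, D4 a b c e → ∃ R : ℝ, 0 < R ∧ ∀ᶠ q in 𝓝 (a, b, c, e),
        R⁻¹ ≤ cr (F q.1) (F q.2.1) (F q.2.2.1) (F q.2.2.2) ∧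
        cr (F q.1) (F q.2.1) (F q.2.2.1) (F q.2.2.2) ≤ R) →
    ∀ x y : Sph, x ≠ y → ∃ c : ℝ, 0 < c ∧ ∀ᶠ q in 𝓝 (x, y), c ≤ dist (F q.1) (F q.2)

def S_SCALE : Prop :=
  ∀ (Y : Type) [Infinite Y] (β β' : Y → Y → ℝ),
    (∀ a b, β a b = β b a) → (∀ a b, β' a b = β' b a) →
    (∀ a b, a ≠ b → 0 < β a b) → (∀ a b, a ≠ b → 0 < β' a b) →
    (∀ a b c e, D4 a b c e →
      β a b * β c e / (β a c * β b e) = β' a b * β' c e / (β' a c * β' b e)) →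
    ∃ l : Y → ℝ, (∀ a, 0 < l a) ∧ ∀ a b, a ≠ b → β a b = l a * l b * β' a b

def S_LIN : Prop :=
  ∀ (Y : Type) (n : Y → V), ∃ S : V →ₗ[ℝ] (Y →₀ ℝ),
    (∀ v ∈ Submodule.span ℝ (Set.range n), Finsupp.linearCombination ℝ n (S v) = v) ∧
    ∀ n' : Y → V, (∀ a b, B (n' a) (n' b) = B (n a) (n b)) →
      (∀ w ∈ Submodule.span ℝ (Set.range n'), (∀ a, B w (n' a) = 0) → w = 0) →
      ∀ a, Finsupp.linearCombination ℝ n' (S (n a)) = n' a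

def S_CONT : Prop :=
  ∀ (G : Type) [Group G] (τ : G → Sph → Sph), Act G τ →
    ∀ F : Sph → Sph, Function.Injective F → Inv G τ F →
    (∀ x y : Sph, x ≠ y → ∃ c : ℝ, 0 < c ∧ ∀ᶠ q in 𝓝 (x, y), c ≤ dist (F q.1) (F q.2)) →
    Continuous F

def S_SURJ : Prop :=
  ∀ F : Sph → Sph, Continuous F → Function.Injective F → Function.Surjective F

/-- linear extension of the action -/
def S_REPA : Prop :=
  ∀ (G : Type) [Group G] (τ : G → Sph → Sph), (∀ x, τ 1 x = x) →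
    (∀ g h x, τ (g * h) x = τ g (τ h x)) →
    ∀ F : Sph → Sph, Function.Bijective F → Inv G τ F →
    ∃ (ρ : G →* Matrix (Fin 4) (Fin 4) ℝ) (l : G → Sph → ℝ),
      (∀ g a, 0 < l g a) ∧
      (∀ g a, Matrix.mulVec (ρ g) (N (F a)) = l g a • N (F (τ g a))) ∧
      (∀ g v w, B (Matrix.mulVec (ρ g) v) (Matrix.mulVec (ρ g) w) = B v w)

def S_REPB : Prop :=
  ∀ (G : Type) [Group G] (τ : G → Sph → Sph), Act G τ →
    ∀ F : Sph → Sph, Continuous F → Function.Bijective F →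
    ∀ (ρ : G →* Matrix (Fin 4) (Fin 4) ℝ) (l : G → Sph → ℝ),
      (∀ g a, 0 < l g a) →
      (∀ g a, Matrix.mulVec (ρ g) (N (F a)) = l g a • N (F (τ g a))) →
      (∀ g v w, B (Matrix.mulVec (ρ g) v) (Matrix.mulVec (ρ g) w) = B v w) →
    (∀ g : G, ∀ v ∈ Hyp, Matrix.mulVec (ρ g) v ∈ Hyp) ∧
    (∀ K : Set V, IsCompact K → K ⊆ Hyp →
      Set.Finite {g : G | ∃ v ∈ K, Matrix.mulVec (ρ g) v ∈ K})

def S_REPC : Prop :=
  ∀ (G : Type) [Group G] (τ : G → Sph → Sph), Act G τ →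
    ∀ F : Sph → Sph, Continuous F → Function.Bijective F →
    ∀ (ρ : G →* Matrix (Fin 4) (Fin 4) ℝ) (l : G → Sph → ℝ),
      (∀ g a, 0 < l g a) →
      (∀ g a, Matrix.mulVec (ρ g) (N (F a)) = l g a • N (F (τ g a))) →
      (∀ g v w, B (Matrix.mulVec (ρ g) v) (Matrix.mulVec (ρ g) w) = B v w) →
      (∀ g : G, ∀ v ∈ Hyp, Matrix.mulVec (ρ g) v ∈ Hyp) →
    ∃ K : Set V, IsCompact K ∧ K ⊆ Hyp ∧
      ∀ v ∈ Hyp, ∃ g : G, ∃ w ∈ K, Matrix.mulVec (ρ g) w = v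

end Pool.Agent.Y320.CM
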