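import Pool.Agent.Y320.CM.Basic

/-!
# Project CM, second part: the complex cross ratio and `PSL(2, ℂ)` (problem MP_4f5047_al)
-/

set_option autoImplicit false
open Filter Topology

namespace Pool.Agent.Y320.CM

/-- a nonzero vector of `ℂ²` in the line corresponding to the point `p` of the sphere -/
noncomputable def sp (p : Sph) : Fin 2 → ℂ :=
  if p.1 2 = -1 then ![0, 1] else ![((1 + p.1 2 : ℝ) : ℂ), ⟨p.1 0, p.1 1⟩]

/-- the determinant of two vectors -/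
def wedge (u v : Fin 2 → ℂ) : ℂ := u 0 * v 1 - u 1 * v 0

/-- the complex cross ratio of four points of the sphere -/
noncomputable def chi (a b c e : Sph) : ℂ :=
  wedge (sp a) (sp b) * wedge (sp c) (sp e) / (wedge (sp a) (sp c) * wedge (sp b) (sp e))

/-- inverse stereographic projection -/
noncomputable def sg (z : ℂ) : Sph :=
  ⟨!₂[2 * z.re / (1 + ‖z‖ ^ 2), 2 * z.im / (1 + ‖z‖ ^ 2), (1 - ‖z‖ ^ 2) / (1 + ‖z‖ ^ 2)], by
    have h : 0 < 1 + ‖z‖ ^ 2 := by positivity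
    have hz : ‖z‖ ^ 2 = z.re ^ 2 + z.im ^ 2 := by
      rw [← Complex.normSq_eq_norm_sq, Complex.normSq_apply]; ring
    rw [mem_sphere_zero_iff_norm, EuclideanSpace.norm_eq]
    simp only [Fin.sum_univ_three, Real.norm_eq_abs, sq_abs]
    simp only [Matrix.cons_val_zero, Matrix.cons_val_one, Matrix.cons_val]
    rw [Real.sqrt_eq_one]
    rw [hz] at h ⊢
    field_simp
    ring⟩

/-- asymptotically invariant complex cross ratios -/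
def CoordC (G : Type) [Group G] (τ : G → Sph → Sph) (U : Set Sph) {ι : Type} (l : Filter ι)
    (ψ : ι → Sph → Sph) : Prop :=
  (∀ a b c e : Sph, a ∈ U → b ∈ U → c ∈ U → e ∈ U → D4 a b c e →
    ∃ R : ℝ, 0 < R ∧ ∀ᶠ q in 𝓝 (a, b, c, e), ∀ᶠ i in l,
      R⁻¹ ≤ cr (ψ i q.1) (ψ i q.2.1) (ψ i q.2.2.1) (ψ i q.2.2.2) ∧
      cr (ψ i q.1) (ψ i q.2.1) (ψ i q.2.2.1) (ψ i q.2.2.2) ≤ R) ∧
  (∀ (g : G) (a b c e : Sph), a ∈ U → b ∈ U → c ∈ U → e ∈ U → D4 a b c e →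
    τ g a ∈ U → τ g b ∈ U → τ g c ∈ U → τ g e ∈ U →
    Tendsto (fun i => chi (ψ i (τ g a)) (ψ i (τ g b)) (ψ i (τ g c)) (ψ i (τ g e)) /
      chi (ψ i a) (ψ i b) (ψ i c) (ψ i e)) l (𝓝 1))

/-- invariance of the complex cross ratios -/
def InvC (G : Type) [Group G] (τ : G → Sph → Sph) (F : Sph → Sph) : Prop :=
  ∀ (g : G) (a b c e : Sph), D4 a b c e →
    chi (F (τ g a)) (F (τ g b)) (F (τ g c)) (F (τ g e)) = chi (F a) (F b) (F c) (F e)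

/-- `SL(2, ℂ)` -/
abbrev SL2 : Type := Matrix.SpecialLinearGroup (Fin 2) ℂ

/-- the matrix `A` represents the action of `g` in the coordinate `F` -/
def Rel {G : Type} (τ : G → Sph → Sph) (F : Sph → Sph) (A : SL2) (g : G) : Prop :=
  ∀ a, wedge (Matrix.mulVec (A : Matrix (Fin 2) (Fin 2) ℂ) (sp (F a))) (sp (F (τ g a))) = 0

def S_NORMC : Prop :=
  ∀ p1 p2 p3 : Sph, p1 ≠ p2 → p1 ≠ p3 → p2 ≠ p3 → ∃ Φ : Sph → Sph,
    (∀ a b c e, chi (Φ a) (Φ b) (Φ c) (Φ e) = chi a b c e) ∧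
    dist (Φ p1) (Φ p2) = √3 ∧ dist (Φ p1) (Φ p3) = √3 ∧ dist (Φ p2) (Φ p3) = √3

def S_LIMC : Prop :=
  ∀ (Y ι : Type) (𝓤 : Ultrafilter ι) (f : ι → Y → Sph) (c : Y → Y → Y → Y → ℂ)
    (a1 a2 a3 a4 : Y), D4 a1 a2 a3 a4 →
    (∀ a b e h, D4 a b e h → c a b e h ≠ 0 ∧
      Tendsto (fun i => chi (f i a) (f i b) (f i e) (f i h)) (𝓤 : Filter ι) (𝓝 (c a b e h))) →
    ∃ F : Y → Sph, Function.Injective F ∧
      ∀ a b e h, D4 a b e h → chi (F a) (F b) (F e) (F h) = c a b e h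

def S_EXC : Prop :=
  ∀ (G : Type) [Group G] (τ : G → Sph → Sph), Act G τ → ∀ U : Set Sph, IsOpen U → U.Nonempty →
    ∀ (ι : Type) (l : Filter ι) (ψ : ι → Sph → Sph), l.NeBot → CoordC G τ U l ψ →
    ∃ F : Sph → Sph, Function.Injective F ∧ InvC G τ F ∧
      ∀ a b c e : Sph, D4 a b c e → ∃ R : ℝ, 0 < R ∧ ∀ᶠ q in 𝓝 (a, b, c, e),
        R⁻¹ ≤ cr (F q.1) (F q.2.1) (F q.2.2.1) (F q.2.2.2) ∧
        cr (F q.1) (F q.2.1) (F q.2.2.1) (F q.2.2.2) ≤ R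

def S_SPIN : Prop :=
  ∀ (G : Type) [Group G] (τ : G → Sph → Sph), (∀ x, τ 1 x = x) →
    (∀ g h x, τ (g * h) x = τ g (τ h x)) →
    ∀ F : Sph → Sph, Function.Injective F → InvC G τ F → ∀ g : G, ∃ A : SL2, Rel τ F A g

def S_PSLA : Prop :=
  ∀ (G : Type) [Group G] (τ : G → Sph → Sph), Act G τ → (∀ g : G, g ≠ 1 → orderOf g = 0) →
    ∀ F : Sph → Sph, Function.Bijective F → (∀ g : G, ∃ A : SL2, Rel τ F A g) →
    ∃ (Γ : Subgroup SL2) (ψ : Γ →* G), (∀ A : Γ, Rel τ F (A : SL2) (ψ A)) ∧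
      (∀ A : SL2, A ∈ Γ ↔ ∃ g, Rel τ F A g) ∧
      Function.Surjective ψ ∧ ψ.ker = (Subgroup.center SL2).subgroupOf Γ

def S_PSLB : Prop :=
  ∀ (G : Type) [Group G] (τ : G → Sph → Sph), Act G τ →
    ∀ F : Sph → Sph, Continuous F → Function.Bijective F →
    ∀ Γ : Subgroup SL2, (∀ A : SL2, A ∈ Γ → ∃ g : G, Rel τ F A g) →
    ∃ U ∈ nhds (1 : Matrix (Fin 2) (Fin 2) ℂ), ∀ γ ∈ Γ,
      ((γ : SL2) : Matrix (Fin 2) (Fin 2) ℂ) ∈ U → γ = 1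

def S_PSLC : Prop :=
  ∀ (G : Type) [Group G] (τ : G → Sph → Sph), Act G τ →
    ∀ F : Sph → Sph, Continuous F → Function.Bijective F →
    ∀ Γ : Subgroup SL2, (∀ g : G, ∃ A ∈ Γ, Rel τ F A g) →
    ∃ K : Set (Matrix (Fin 2) (Fin 2) ℂ), IsCompact K ∧
      ∀ g : SL2, ∃ γ ∈ Γ, ((γ * g : SL2) : Matrix (Fin 2) (Fin 2) ℂ) ∈ K

end Pool.Agent.Y320.CM
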